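import Pool.Agent.Q16.GR.Bas

/-!
# Project GR, job SYP: properties of the symbols of conjugate factors (helper16)
-/

set_option autoImplicit false
set_option linter.all false

open scoped Classical
open Finset Polynomial

namespace Pool.Agent.Q16.GR

open Pool.Agent.Q269.GR
open Pool.Agent.Y164.PS (L sg L_eq_zero_iff)

theorem f2eq : ∀ x y : F2, (x = 0 ↔ y = 0) → x = y := by decide

theorem sgd_zero_iff {k : Type} [Field k] [Fintype k] (d : ℕ) (x : Om k) :
    sgd k d x = 0 ↔ ∃ y : Om k, inK k d y ∧ x = y ^ 2 := by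
  unfold sgd
  split_ifs with h
  · exact ⟨fun _ => h, fun _ => rfl⟩
  · exact ⟨fun h' => absurd h' (by decide), fun h' => absurd h' h⟩

section syp

variable {k : Type} [Field k] [Fintype k]

/-- the product of the conjugate factors -/
noncomputable def yy (g : ℕ) (P P' : k[X]) (c : ℕ) : Om k :=
  ∏ l ∈ (range P.natDegree).filter (fun l => l % g = c), (rt P' - rt P ^ (Fintype.card k ^ l))

theorem sy_eq (g : ℕ) (P P' : k[X]) (c : ℕ) : sy g P P' c = sgd k P'.natDegree (yy g P P' c) := rfl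

/-- the double product -/
noncomputable def ww (g : ℕ) (P P' : k[X]) (a b : ℕ) : Om k :=
  ∏ m ∈ (range P'.natDegree).filter (fun m => m % g = b),
    ∏ l ∈ (range P.natDegree).filter (fun l => l % g = a), (rt P' ^ (Fintype.card k ^ m) - rt P ^ (Fintype.card k ^ l))

variable {P P' : k[X]} {g : ℕ}

structure Dat (g : ℕ) (P P' : k[X]) : Prop where
  m : P.Monic
  i : Irreducible P
  m' : P'.Monic
  i' : Irreducible P'
  g0 : 0 < g
  d : g ∣ P.natDegree
  d' : g ∣ P'.natDegree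

theorem Dat.symm (h : Dat g P P') : Dat g P' P := ⟨h.m', h.i', h.m, h.i, h.g0, h.d', h.d⟩

theorem per (h2 : S_RTP) (hm : P.Monic) (hi : Irreducible P) (n m : ℕ) (h : n ≡ m [MOD P.natDegree]) :
    rt P ^ (Fintype.card k ^ n) = rt P ^ (Fintype.card k ^ m) := ((h2 k P hm hi).2.2.2.1 n m).2 h

theorem yy_inK (h2 : S_RTP) (h : Dat g P P') (c : ℕ) (hc : c < g) : inK k P'.natDegree (yy g P P' c) := by
  show (yy g P P' c) ^ (Fintype.card k ^ P'.natDegree) = yy g P P' c
  unfold yy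
  rw [prod_q]
  have h3 : rt P' ^ (Fintype.card k ^ P'.natDegree) = rt P' := (h2 k P' h.m' h.i').2.1
  have h4 : ∀ l, (rt P' - rt P ^ (Fintype.card k ^ l)) ^ (Fintype.card k ^ P'.natDegree) =
      rt P' - rt P ^ (Fintype.card k ^ (l + P'.natDegree)) := by
    intro l
    rw [sub_q, h3, pow_pow_q]
  rw [Finset.prod_congr rfl fun l _ => h4 l]
  have h5 := prod_shift (fun l => rt P' - rt P ^ (Fintype.card k ^ l)) P.natDegree g h.i.natDegree_pos h.d
    (fun n m hnm => by
      show rt P' - rt P ^ (Fintype.card k ^ n) = rt P' - rt P ^ (Fintype.card k ^ m)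
      rw [per h2 h.m h.i n m hnm]) c P'.natDegree
  have h6 : (c + P'.natDegree) % g = c := by
    obtain ⟨t, ht⟩ := h.d'
    rw [ht, Nat.add_mul_mod_self_left, Nat.mod_eq_of_lt hc]
  rw [h6, Nat.mod_eq_of_lt hc] at h5
  exact h5

/-- the nonvanishing condition -/
def NV (g : ℕ) (P P' : k[X]) (c : ℕ) : Prop :=
  ∀ l m : ℕ, l ≡ m + c [MOD g] → rt P' ^ (Fintype.card k ^ m) ≠ rt P ^ (Fintype.card k ^ l)

theorem yy_ne (h : Dat g P P') {c : ℕ} (hc : c < g) (hn : NV g P P' c) : yy g P P' c ≠ 0 := by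
  unfold yy
  rw [Finset.prod_ne_zero_iff]
  intro l hl
  rw [mem_filter] at hl
  have h1 := hn l 0 (by
    rw [zero_add]
    show l % g = c % g
    rw [hl.2, Nat.mod_eq_of_lt hc])
  rw [pow_zero, pow_one] at h1
  exact sub_ne_zero.2 h1

theorem sy_ww (hk : ringChar k ≠ 2) (h1 : S_SGD) (h2 : S_RTP) (h : Dat g P P') {c : ℕ} (hc : c < g)
    (hn : NV g P P' c) : sy g P P' c = sgd k g (ww g P P' c 0) ∧ inK k g (ww g P P' c 0) := by
  have h3 := (h1 k hk P'.natDegree h.i'.natDegree_pos).2.2.2.2.1 (yy g P P' c) g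
    (yy_inK h2 h c hc) (yy_ne h hc hn) h.g0 h.d'
  have h4 : ∏ i ∈ range (P'.natDegree / g), (yy g P P' c) ^ (Fintype.card k ^ (g * i)) = ww g P P' c 0 := by
    unfold ww
    rw [prod_mult (fun m => ∏ l ∈ (range P.natDegree).filter (fun l => l % g = c),
      (rt P' ^ (Fintype.card k ^ m) - rt P ^ (Fintype.card k ^ l))) _ g h.g0 h.d']
    refine prod_congr rfl fun i _ => ?_
    unfold yy
    rw [prod_q]
    have h5 : ∀ l, (rt P' - rt P ^ (Fintype.card k ^ l)) ^ (Fintype.card k ^ (g * i)) =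
        rt P' ^ (Fintype.card k ^ (g * i)) - rt P ^ (Fintype.card k ^ (l + g * i)) := by
      intro l
      rw [sub_q, pow_pow_q]
    rw [Finset.prod_congr rfl fun l _ => h5 l]
    have h6 := prod_shift (fun l => rt P' ^ (Fintype.card k ^ (g * i)) - rt P ^ (Fintype.card k ^ l)) P.natDegree g
      h.i.natDegree_pos h.d (fun n m hnm => by
        show rt P' ^ (Fintype.card k ^ (g * i)) - rt P ^ (Fintype.card k ^ n) = rt P' ^ (Fintype.card k ^ (g * i)) - rt P ^ (Fintype.card k ^ m)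
        rw [per h2 h.m h.i n m hnm]) c (g * i)
    rw [Nat.add_mul_mod_self_left, Nat.mod_eq_of_lt hc] at h6
    exact h6
  rw [h4] at h3
  exact ⟨h3.2.symm, h3.1⟩

theorem ww_shift (h2 : S_RTP) (h : Dat g P P') {a b a' b' : ℕ} (s : ℕ) (ha : a < g) (hb : b < g)
    (ha' : (a + s) % g = a') (hb' : (b + s) % g = b') :
    (ww g P P' a b) ^ (Fintype.card k ^ s) = ww g P P' a' b' := by
  unfold ww
  rw [prod_q]
  have e1 : ∀ m, (∏ l ∈ (range P.natDegree).filter (fun l => l % g = a),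
      (rt P' ^ (Fintype.card k ^ m) - rt P ^ (Fintype.card k ^ l))) ^ (Fintype.card k ^ s) =
      ∏ l ∈ (range P.natDegree).filter (fun l => l % g = a'),
        (rt P' ^ (Fintype.card k ^ (m + s)) - rt P ^ (Fintype.card k ^ l)) := by
    intro m
    rw [prod_q]
    have h5 : ∀ l, (rt P' ^ (Fintype.card k ^ m) - rt P ^ (Fintype.card k ^ l)) ^ (Fintype.card k ^ s) =
        rt P' ^ (Fintype.card k ^ (m + s)) - rt P ^ (Fintype.card k ^ (l + s)) := by
      intro l
      rw [sub_q, pow_pow_q, pow_pow_q]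
    rw [Finset.prod_congr rfl fun l _ => h5 l]
    have h6 := prod_shift (fun l => rt P' ^ (Fintype.card k ^ (m + s)) - rt P ^ (Fintype.card k ^ l)) P.natDegree g
      h.i.natDegree_pos h.d (fun n n' hnm => by
        show rt P' ^ (Fintype.card k ^ (m + s)) - rt P ^ (Fintype.card k ^ n) = rt P' ^ (Fintype.card k ^ (m + s)) - rt P ^ (Fintype.card k ^ n')
        rw [per h2 h.m h.i n n' hnm]) a s
    rw [Nat.mod_eq_of_lt ha, ha'] at h6
    exact h6
  rw [Finset.prod_congr rfl fun m _ => e1 m]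
  have h6 := prod_shift (fun m => ∏ l ∈ (range P.natDegree).filter (fun l => l % g = a'),
        (rt P' ^ (Fintype.card k ^ m) - rt P ^ (Fintype.card k ^ l))) P'.natDegree g
      h.i'.natDegree_pos h.d' (fun n n' hnm => by
        show (∏ l ∈ (range P.natDegree).filter (fun l => l % g = a'),
            (rt P' ^ (Fintype.card k ^ n) - rt P ^ (Fintype.card k ^ l))) =
          ∏ l ∈ (range P.natDegree).filter (fun l => l % g = a'),
            (rt P' ^ (Fintype.card k ^ n') - rt P ^ (Fintype.card k ^ l))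
        rw [per h2 h.m' h.i' n n' hnm]) b s
  rw [Nat.mod_eq_of_lt hb, hb'] at h6
  exact h6

theorem ww_swap (a b : ℕ) : ww g P' P b a = ww g P P' a b ∨ ww g P' P b a = - ww g P P' a b := by
  have e : ww g P' P b a = ∏ m ∈ (range P'.natDegree).filter (fun m => m % g = b),
    ∏ l ∈ (range P.natDegree).filter (fun l => l % g = a), ((-1) * (rt P' ^ (Fintype.card k ^ m) - rt P ^ (Fintype.card k ^ l))) := by
    unfold ww
    rw [Finset.prod_comm]
    refine prod_congr rfl fun m _ => prod_congr rfl fun l _ => ?_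
    ring
  have e2 : ww g P' P b a = (∏ m ∈ (range P'.natDegree).filter (fun m => m % g = b),
    ∏ l ∈ (range P.natDegree).filter (fun l => l % g = a), (-1 : Om k)) * ww g P P' a b := by
    rw [e]
    unfold ww
    rw [← Finset.prod_mul_distrib]
    refine prod_congr rfl fun m _ => ?_
    rw [← Finset.prod_mul_distrib]
  have e3 : ∀ n : ℕ, ((-1 : Om k)) ^ n = 1 ∨ ((-1 : Om k)) ^ n = -1 := fun n => neg_one_pow_eq_or _ n
  rw [e2]
  simp only [Finset.prod_const, ← pow_mul]
  rcases e3 ((#{l ∈ range P.natDegree | l % g = a}) * (#{m ∈ range P'.natDegree | m % g = b})) with h | h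
  · left; rw [h, one_mul]
  · right; rw [h, neg_one_mul]

theorem NV.swap {c : ℕ} (hc : c < g) (hn : NV g P P' c) : NV g P' P ((g - c) % g) := by
  intro l m hlm
  have h1 := hn m l (by
    have e1 : l + c ≡ m + (g - c) % g + c [MOD g] := Nat.ModEq.add_right c hlm
    have e2 : m + (g - c) % g + c ≡ m [MOD g] := by
      rw [add_assoc]
      have e3 : (g - c) % g + c ≡ 0 [MOD g] := by
        calc (g - c) % g + c ≡ (g - c) + c [MOD g] := Nat.ModEq.add_right _ (Nat.mod_modEq _ _)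
          _ = g := by omega
          _ ≡ 0 [MOD g] := by simp [Nat.ModEq]
      exact Nat.ModEq.add_left m e3
    exact (e1.trans e2).symm)
  exact h1.symm

theorem sy_swap (hk : ringChar k ≠ 2) (hq : IsSquare (-1 : k)) (h1 : S_SGD) (h2 : S_RTP) (h : Dat g P P')
    {c : ℕ} (hc : c < g) (hn : NV g P P' c) : sy g P P' c = sy g P' P ((g - c) % g) := by
  have hc2 : (g - c) % g < g := Nat.mod_lt _ h.g0
  obtain ⟨e1, e1'⟩ := sy_ww hk h1 h2 h hc hn
  obtain ⟨e2, e2'⟩ := sy_ww hk h1 h2 h.symm hc2 (hn.swap hc)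
  rw [e1, e2]
  have hS := h1 k hk g h.g0
  have e3 := hS.2.1 (ww g P' P ((g - c) % g) 0) c e2'
  have e4 := ww_shift h2 h.symm (a := (g - c) % g) (b := 0) (a' := 0) (b' := c) c hc2 h.g0 (by
      rw [Nat.mod_add_mod, Nat.sub_add_cancel hc.le, Nat.mod_self]) (by
      rw [zero_add, Nat.mod_eq_of_lt hc])
  rw [e4] at e3
  rw [← e3]
  rcases ww_swap (g := g) (P := P) (P' := P') c 0 with e5 | e5
  · rw [e5]
  · rw [e5, hS.2.2.2.1 hq _ e1']

theorem L_sgd (hk : ringChar k ≠ 2) (h2 : S_RTP) (hm : P'.Monic) (hi : Irreducible P') {f : k[X]}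
    (hf : ¬ P' ∣ f) : sgd k P'.natDegree (aeval (rt P') f) = L f P' := by
  apply f2eq
  rw [L_eq_zero_iff hk hm hi hf, sgd_zero_iff]
  have hroot := (h2 k P' hm hi).1
  have hK := (h2 k P' hm hi).2.1
  have hmin : ∀ z : k[X], aeval (rt P') z = 0 ↔ P' ∣ z := by
    intro z
    have e1 : minpoly k (rt P') = P' := (minpoly.eq_of_irreducible_of_monic hi hroot hm).symm
    rw [← minpoly.dvd_iff, e1]
  constructor
  · rintro ⟨y, hy, e⟩
    obtain ⟨z, rfl⟩ := (inK_iff hm hi hroot hK y).1 hy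
    refine ⟨z, ?_⟩
    rw [← hmin, map_sub, map_pow, e, sub_self]
  · rintro ⟨z, hz⟩
    refine ⟨aeval (rt P') z, (inK_iff hm hi hroot hK _).2 ⟨z, rfl⟩, ?_⟩
    rw [← hmin, map_sub, map_pow, sub_eq_zero] at hz
    exact hz.symm

theorem NV_of_ne (h2 : S_RTP) (h : Dat g P P') (hne : P ≠ P') (c : ℕ) : NV g P P' c := by
  intro l m _
  exact ((h2 k P h.m h.i).2.2.2.2 P' h.m' h.i' hne.symm l m).symm

theorem NV_self (h2 : S_RTP) (h : Dat g P P) {c : ℕ} (hc0 : 0 < c) (hc : c < g) : NV g P P c := by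
  intro l m hlm he
  have h3 := ((h2 k P h.m h.i).2.2.2.1 m l).1 he
  have h4 : m ≡ m + c [MOD g] := (Nat.ModEq.of_dvd h.d h3).trans hlm
  have h5 : m + 0 ≡ m + c [MOD g] := h4
  have h6 := Nat.ModEq.add_left_cancel' m h5
  have h7 : 0 % g = c % g := h6
  rw [Nat.zero_mod, Nat.mod_eq_of_lt hc] at h7
  omega

/-- the product over the classes -/
theorem sgd_prod (hk : ringChar k ≠ 2) (h1 : S_SGD) {ι : Type} {d : ℕ} (hd : 0 < d) (s : Finset ι)
    (f : ι → Om k) (hf : ∀ i ∈ s, inK k d (f i)) (hf0 : ∀ i ∈ s, f i ≠ 0) :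
    inK k d (∏ i ∈ s, f i) ∧ sgd k d (∏ i ∈ s, f i) = ∑ i ∈ s, sgd k d (f i) := by
  induction s using Finset.induction_on with
  | empty =>
    rw [prod_empty, sum_empty]
    refine ⟨one_pow _, ?_⟩
    rw [sgd_zero_iff]
    exact ⟨1, one_pow _, by rw [one_pow]⟩
  | insert a s ha ih =>
    obtain ⟨i1, i2⟩ := ih (fun i hi => hf i (mem_insert_of_mem hi)) fun i hi => hf0 i (mem_insert_of_mem hi)
    rw [prod_insert ha, sum_insert ha]
    refine ⟨?_, ?_⟩
    · show (f a * ∏ i ∈ s, f i) ^ (Fintype.card k ^ d) = _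
      rw [mul_pow]
      have e1 : (f a) ^ (Fintype.card k ^ d) = f a := hf a (mem_insert_self _ _)
      have e2 : (∏ i ∈ s, f i) ^ (Fintype.card k ^ d) = ∏ i ∈ s, f i := i1
      rw [e1, e2]
    · rw [(h1 k hk d hd).1 _ _ (hf a (mem_insert_self _ _)) i1 (hf0 a (mem_insert_self _ _))
        (prod_ne_zero_iff.2 fun i hi => hf0 i (mem_insert_of_mem hi)), i2]

theorem sum_sy (hk : ringChar k ≠ 2) (h1 : S_SGD) (h2 : S_RTP) (h : Dat g P P') (hne : P ≠ P') :
    ∑ c ∈ range g, sy g P P' c = L P P' := by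
  have hnd : ¬ P' ∣ P := by
    intro hd
    exact hne (eq_of_monic_of_associated h.m h.m' (h.i'.associated_of_dvd h.i hd).symm)
  have h3 := sgd_prod hk h1 h.i'.natDegree_pos (range g) (fun c => yy g P P' c)
    (fun c hc => yy_inK h2 h c (mem_range.1 hc))
    (fun c hc => yy_ne h (mem_range.1 hc) (NV_of_ne h2 h hne c))
  have h4 : ∏ c ∈ range g, yy g P P' c = aeval (rt P') P := by
    unfold yy
    rw [Finset.prod_fiberwise_of_maps_to (s := range P.natDegree) (t := range g) (g := fun l => l % g)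
      (fun l _ => mem_range.2 (Nat.mod_lt _ h.g0)) (fun l => rt P' - rt P ^ (Fintype.card k ^ l))]
    have h5 := (h2 k P h.m h.i).2.2.1
    have h6 : aeval (rt P') P = eval (rt P') (P.map (algebraMap k (Om k))) := by
      rw [eval_map, aeval_def]
    rw [h6, h5, eval_prod]
    refine prod_congr rfl fun l _ => ?_
    rw [eval_sub, eval_X, eval_C]
  rw [h4] at h3
  rw [← L_sgd hk h2 h.m' h.i' hnd, h3.2]
  rfl

theorem sy_fine (hk : ringChar k ≠ 2) (h1 : S_SGD) (h2 : S_RTP) (h : Dat g P P') (hne : P ≠ P') {r : ℕ}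
    (hr0 : 0 < r) (hr : r ∣ g) {c : ℕ} (hc : c < r) :
    sy r P P' c = ∑ c' ∈ (range g).filter (fun c' => c' % r = c), sy g P P' c' := by
  have hg : ∀ c' ∈ (range g).filter (fun c' => c' % r = c), c' < g := fun c' hc' =>
    mem_range.1 (mem_filter.1 hc').1
  have h3 := sgd_prod hk h1 h.i'.natDegree_pos ((range g).filter (fun c' => c' % r = c))
    (fun c => yy g P P' c)
    (fun c hc => yy_inK h2 h c (hg c hc))
    (fun c hc => yy_ne h (hg c hc) (NV_of_ne h2 h hne c))
  have h4 : ∏ c' ∈ (range g).filter (fun c' => c' % r = c), yy g P P' c' = yy r P P' c := by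
    unfold yy
    rw [← Finset.prod_fiberwise_of_maps_to
      (s := (range P.natDegree).filter (fun l => l % r = c))
      (t := (range g).filter (fun c' => c' % r = c)) (g := fun l => l % g)
      (fun l hl => by
        rw [mem_filter] at hl ⊢
        refine ⟨mem_range.2 (Nat.mod_lt _ h.g0), ?_⟩
        rw [Nat.mod_mod_of_dvd _ hr, hl.2]) (fun l => rt P' - rt P ^ (Fintype.card k ^ l))]
    refine prod_congr rfl fun c' hc' => ?_
    refine prod_congr ?_ fun _ _ => rfl
    ext l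
    simp only [mem_filter, mem_range]
    rw [mem_filter] at hc'
    constructor
    · rintro ⟨a, b⟩
      refine ⟨⟨a, ?_⟩, b⟩
      rw [← Nat.mod_mod_of_dvd l hr, b, hc'.2]
    · rintro ⟨⟨a, _⟩, b⟩
      exact ⟨a, b⟩
  rw [h4] at h3
  rw [sy_eq, h3.2]
  rfl

end syp

theorem cf_sum {F : Type} [Field F] [Algebra F2 F] {ι : Type} (s : Finset ι) (f : ι → F2) :
    (cf (∑ i ∈ s, f i) : F) = ∑ i ∈ s, cf (f i) := by
  unfold cf
  exact map_sum _ _ _

theorem hv_ev {F : Type} [Field F] [Algebra F2 F] (ξ : F) {r g : ℕ} (hr0 : 0 < r) (hr : r ∣ g)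
    (hξ : ξ ^ r = 1) (s S : ℕ → F2)
    (h : ∀ c < r, s c = ∑ c' ∈ (range g).filter (fun c' => c' % r = c), S c') :
    ∑ c ∈ range r, cf (s c) * ξ ^ c = ∑ c ∈ range g, cf (S c) * ξ ^ c := by
  have h1 : ∀ c ∈ range r, (cf (s c) : F) * ξ ^ c =
      ∑ c' ∈ (range g).filter (fun c' => c' % r = c), cf (S c') * ξ ^ c' := by
    intro c hc
    rw [h c (mem_range.1 hc), cf_sum, sum_mul]
    refine sum_congr rfl fun c' hc' => ?_
    rw [mem_filter] at hc'
    rw [pow_eq_pow_mod c' hξ, hc'.2]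
  rw [sum_congr rfl h1]
  exact Finset.sum_fiberwise_of_maps_to (s := range g) (t := range r) (g := fun l => l % r)
    (fun l _ => mem_range.2 (Nat.mod_lt _ hr0)) (fun c' => (cf (S c') : F) * ξ ^ c')

theorem t_SYP (h1 : S_SGD) (h2 : S_RTP) : S_SYP := by
  intro k _ _ hk hq P P' g hm hi hm' hi' hg0 hd hd'
  have h : Dat g P P' := ⟨hm, hi, hm', hi', hg0, hd, hd'⟩
  refine ⟨fun hne => sum_sy hk h1 h2 h hne, fun hne r hr0 hr c hc => sy_fine hk h1 h2 h hne hr0 hr hc,
    fun hne c hc => sy_swap hk hq h1 h2 h hc (NV_of_ne h2 h hne c), ?_, ?_, ?_⟩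
  · intro c hc hc0
    have h' : Dat g P P := ⟨hm, hi, hm, hi, hg0, hd, hd⟩
    have h3 := sy_swap hk hq h1 h2 h' hc (NV_self h2 h' hc0 hc)
    rw [Nat.mod_eq_of_lt (by omega)] at h3
    exact h3
  · intro hne F _ _ ξ r hr0 hr hξ
    unfold hv ev
    rw [hv_ev ξ hr0 hr hξ (fun c => sy r P P' c) (fun c => sy g P P' c)
      (fun c hc => sy_fine hk h1 h2 h hne hr0 hr hc)]
    exact (Fin.sum_univ_eq_sum_range (fun c => (cf (sy g P P' c) : F) * ξ ^ c) g).symm
  · intro hne F _ _ ξ hξ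
    unfold hv
    have hξ0 : ξ ≠ 0 := by
      rintro rfl
      rw [zero_pow hg0.ne'] at hξ
      exact zero_ne_one hξ
    have hinv : ∀ c < g, (g - (g - c) % g) % g = c := by
      intro c hc
      rcases Nat.eq_zero_or_pos c with rfl | hc0
      · rw [Nat.sub_zero, Nat.mod_self, Nat.sub_zero, Nat.mod_self]
      · rw [Nat.mod_eq_of_lt (by omega : g - c < g), Nat.sub_sub_self hc.le, Nat.mod_eq_of_lt hc]
    refine Finset.sum_bij' (fun c _ => (g - c) % g) (fun c _ => (g - c) % g) ?_ ?_ ?_ ?_ ?_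
    · intro c _
      exact mem_range.2 (Nat.mod_lt _ hg0)
    · intro c _
      exact mem_range.2 (Nat.mod_lt _ hg0)
    · intro c hc
      exact hinv c (mem_range.1 hc)
    · intro c hc
      exact hinv c (mem_range.1 hc)
    · intro c hc
      have hc' := mem_range.1 hc
      rw [sy_swap hk hq h1 h2 h.symm hc' (NV_of_ne h2 h.symm hne.symm c)]
      congr 1
      rw [inv_pow]
      refine eq_inv_of_mul_eq_one_left ?_
      rw [← pow_eq_pow_mod _ hξ, ← pow_add, Nat.add_sub_cancel' hc'.le, hξ]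

end Pool.Agent.Q16.GR

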