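import Pool.Agent.Q269.GR.StF
import Pool.Agent.Q16.GR.SYP

/-!
# Project GR: the Frobenius on polynomials; job PAS (helper16)
-/

set_option autoImplicit false
set_option linter.all false

open scoped Classical
open Finset Polynomial

namespace Pool.Agent.Q16.GR

open Pool.Agent.Q269.GR
open Pool.Agent.Y164.PS (L sg L_eq_zero_iff L_of_not_coprime coprime_of_not_dvd)
open UniqueFactorizationMonoid

section ph

variable {k k' : Type} [Field k] [Fintype k] [Field k'] [Algebra k k']

theorem fr_apply (x : k') : fr k x = x ^ Fintype.card k := by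
  show FiniteField.frobeniusAlgHom k k' x = _
  rw [FiniteField.coe_frobeniusAlgHom]

theorem fr_iter (n : ℕ) (x : k') : (fr k)^[n] x = x ^ (Fintype.card k ^ n) := by
  induction n with
  | zero => simp
  | succ n ih => rw [Function.iterate_succ_apply', ih, fr_apply, ← pow_mul, pow_succ]

theorem fr_alg (x : k) : fr k (algebraMap k k' x) = algebraMap k k' x := by
  rw [fr_apply, ← map_pow, FiniteField.pow_card]

theorem ph_coeff (p : k'[X]) (n : ℕ) : (ph k p).coeff n = fr k (p.coeff n) := by
  unfold ph; rw [coeff_map]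

theorem ph_iter_coeff (c : ℕ) (p : k'[X]) (n : ℕ) : ((ph k)^[c] p).coeff n = (fr k)^[c] (p.coeff n) := by
  induction c with
  | zero => rfl
  | succ c ih => rw [Function.iterate_succ_apply', Function.iterate_succ_apply', ph_coeff, ih]

theorem ph_alg (p : k[X]) : ph k (p.map (algebraMap k k')) = p.map (algebraMap k k') := by
  ext n
  rw [ph_coeff, coeff_map, fr_alg]

theorem ph_mul (f g : k'[X]) : ph k (f * g) = ph k f * ph k g := by unfold ph; rw [Polynomial.map_mul]
theorem ph_sub (f g : k'[X]) : ph k (f - g) = ph k f - ph k g := by unfold ph; rw [Polynomial.map_sub]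
theorem ph_pow (f : k'[X]) (n : ℕ) : ph k (f ^ n) = ph k f ^ n := by unfold ph; rw [Polynomial.map_pow]
theorem ph_monic {f : k'[X]} (h : f.Monic) : (ph k f).Monic := h.map _
theorem ph_natDegree (f : k'[X]) : (ph k f).natDegree = f.natDegree := by unfold ph; exact natDegree_map _
theorem ph_inj : Function.Injective (ph k : k'[X] → k'[X]) :=
  Polynomial.map_injective (fr k (k' := k')) (fr k (k' := k')).injective

theorem ph_surj [Finite k'] : Function.Surjective (ph k : k'[X] → k'[X]) :=
  Polynomial.map_surjective _ ((Finite.injective_iff_surjective).1 (fr k (k' := k')).injective)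

/-- the automorphism of the ring of polynomials -/
noncomputable def phE (k : Type) {k' : Type} [Field k] [Fintype k] [Field k'] [Algebra k k'] [Finite k'] :
    k'[X] ≃+* k'[X] :=
  RingEquiv.ofBijective (Polynomial.mapRingHom (fr k)) ⟨ph_inj (k := k), ph_surj (k := k)⟩

theorem phE_apply [Finite k'] (f : k'[X]) : phE k f = ph k f := rfl

theorem ph_irr [Finite k'] {f : k'[X]} : Irreducible (ph k f) ↔ Irreducible f := by
  rw [← phE_apply]
  exact MulEquiv.irreducible_iff (phE k : k'[X] ≃+* k'[X])

theorem ph_dvd [Finite k'] {f g : k'[X]} : ph k f ∣ ph k g ↔ f ∣ g := by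
  rw [← phE_apply, ← phE_apply]
  exact map_dvd_iff (phE k : k'[X] ≃+* k'[X])

theorem card_pow_finrank [Fintype k'] (x : k') : x ^ (Fintype.card k ^ Module.finrank k k') = x := by
  rw [← Module.card_eq_pow_finrank (K := k) (V := k')]
  exact FiniteField.pow_card x

theorem ph_finrank [Fintype k'] (P : k'[X]) : (ph k)^[Module.finrank k k'] P = P := by
  ext n
  rw [ph_iter_coeff, fr_iter, card_pow_finrank]

theorem nF_ph [Finite k'] (f : k'[X]) :
    normalizedFactors (ph k f) = (normalizedFactors f).map (ph k) := by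
  by_cases hf : f = 0
  · rw [hf]
    have : ph k (0 : k'[X]) = 0 := Polynomial.map_zero _
    rw [this, normalizedFactors_zero, Multiset.map_zero]
  have h1 : Associated (((normalizedFactors f).map (ph k)).prod) (ph k f) := by
    have h2 := (prod_normalizedFactors hf).map (phE k : k'[X] ≃+* k'[X])
    rw [map_multiset_prod] at h2
    exact h2
  rw [← h1.normalizedFactors_eq, normalizedFactors_prod_eq]
  · rw [Multiset.map_map]
    refine Multiset.map_congr rfl fun p hp => ?_
    have h3 : p.Monic := by
      have h4 := normalize_normalized_factor p hp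
      have h5 : p ≠ 0 := (irreducible_of_normalized_factor p hp).ne_zero
      rw [← h4]
      exact Polynomial.monic_normalize h5
    exact (ph_monic h3).normalize_eq_self
  · intro a ha
    obtain ⟨p, hp, rfl⟩ := Multiset.mem_map.1 ha
    exact ph_irr.2 (irreducible_of_normalized_factor p hp)

end ph

theorem t_PAS (h : S_PAR) : S_PAS := by
  intro k k' E _ _ _ _ _ _ _ _ σ hσ
  refine ⟨?_, fun P => ph_finrank P, ?_, fun P => ph_alg P, fun P hm hi =>
    ⟨ph_monic hm, ph_irr.2 hi, ph_natDegree P⟩⟩
  · intro P u hu
    obtain ⟨n, hn⟩ : ∃ n : k'[X], n = IsFractionRing.num k'[X] u := ⟨_, rfl⟩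
    obtain ⟨dn, hdn⟩ : ∃ dn : k'[X], dn = (IsFractionRing.den k'[X] u : k'[X]) := ⟨_, rfl⟩
    have hd0 : dn ≠ 0 := by
      rw [hdn]
      exact nonZeroDivisors.coe_ne_zero _
    have hdE : algebraMap k'[X] E dn ≠ 0 := by
      intro h0
      exact hd0 ((IsFractionRing.injective k'[X] E) (h0.trans (map_zero _).symm))
    have hu1 : u * algebraMap k'[X] E dn = algebraMap k'[X] E n := by
      rw [hn, hdn]
      have h2 := IsFractionRing.mk'_num_den k'[X] u
      rw [IsLocalization.mk'_eq_iff_eq_mul] at h2
      exact h2.symm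
    have hn0 : n ≠ 0 := by
      rintro rfl
      rw [map_zero] at hu1
      rcases mul_eq_zero.1 hu1 with h3 | h3
      · exact hu h3
      · exact hdE h3
    have hu2 : u * (algebraMap k'[X] E dn) ^ 2 = algebraMap k'[X] E (n * dn) := by
      rw [map_mul, ← hu1]; ring
    have hf0 : n * dn ≠ 0 := mul_ne_zero hn0 hd0
    have e1 := (h k' E).1 P (n * dn) u _ hdE hf0 hu2
    have hσ2 : σ u * (σ (algebraMap k'[X] E dn)) ^ 2 = algebraMap k'[X] E (ph k (n * dn)) := by
      rw [← map_pow, ← map_mul, hu2, hσ.eq]
    have hph0 : ph k (n * dn) ≠ 0 := by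
      intro h0
      apply hf0
      apply ph_inj (k := k)
      rw [h0]
      exact (Polynomial.map_zero _).symm
    have e2 := (h k' E).1 (ph k P) (ph k (n * dn)) (σ u) (σ (algebraMap k'[X] E dn))
      (by
        intro h0
        apply hdE
        rwa [map_eq_zero_iff σ σ.injective] at h0) hph0 hσ2
    rw [e2, e1, nF_ph, Multiset.count_map_eq_count' _ _ (ph_inj (k := k))]
  · intro hk f P hm hi
    have hk' : ringChar k' ≠ 2 := by
      have h1 : ringChar k' = ringChar k := by
        have hk : CharP k (ringChar k) := ringChar.charP k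
        have hE : CharP k' (ringChar k) := charP_of_injective_algebraMap (algebraMap k k').injective _
        exact ringChar.eq k' (ringChar k)
      rw [h1]
      exact hk
    by_cases hd : P ∣ f
    · rw [L_of_not_coprime hi.ne_zero (by
        intro hc
        exact hi.not_isUnit (hc.isUnit_of_dvd' hd dvd_rfl)),
        L_of_not_coprime (ph_irr.2 hi : Irreducible (ph k P)).ne_zero (by
        intro hc
        exact (ph_irr.2 hi : Irreducible (ph k P)).not_isUnit (hc.isUnit_of_dvd' (ph_dvd.2 hd) dvd_rfl))]
    · apply f2eq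
      rw [L_eq_zero_iff hk' (ph_monic hm) (ph_irr.2 hi) (fun h0 => hd (ph_dvd.1 h0)),
        L_eq_zero_iff hk' hm hi hd]
      constructor
      · rintro ⟨z, hz⟩
        obtain ⟨z', rfl⟩ := ph_surj (k := k) z
        refine ⟨z', ?_⟩
        rw [← ph_pow, ← ph_sub, ph_dvd] at hz
        exact hz
      · rintro ⟨z, hz⟩
        refine ⟨ph k z, ?_⟩
        rw [← ph_pow, ← ph_sub, ph_dvd]
        exact hz

end Pool.Agent.Q16.GR

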