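import Pool.Agent.Q269.GR.StB

/-!
# Project GR: basic facts (helper16)
-/

set_option autoImplicit false
set_option linter.all false

open scoped Classical
open Finset Polynomial

namespace Pool.Agent.Q16.GR

open Pool.Agent.Q269.GR

section basic

variable {k : Type} [Field k] [Fintype k]

theorem ex_frob (R : Type) [CommRing R] [Algebra k R] (i : ℕ) :
    ∃ f : R →ₐ[k] R, ∀ x, f x = x ^ (Fintype.card k ^ i) := by
  induction i with
  | zero => exact ⟨AlgHom.id k _, fun x => by simp⟩
  | succ i ih =>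
    obtain ⟨f, hf⟩ := ih
    refine ⟨(FiniteField.frobeniusAlgHom k R).comp f, fun x => ?_⟩
    rw [AlgHom.comp_apply, hf, FiniteField.coe_frobeniusAlgHom]
    rw [pow_succ, pow_mul]

theorem sub_q {R : Type} [CommRing R] [Algebra k R] (x y : R) (i : ℕ) :
    (x - y) ^ (Fintype.card k ^ i) = x ^ (Fintype.card k ^ i) - y ^ (Fintype.card k ^ i) := by
  obtain ⟨f, hf⟩ := ex_frob (k := k) R i
  rw [← hf, ← hf, ← hf, map_sub]

theorem add_q {R : Type} [CommRing R] [Algebra k R] (x y : R) (i : ℕ) :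
    (x + y) ^ (Fintype.card k ^ i) = x ^ (Fintype.card k ^ i) + y ^ (Fintype.card k ^ i) := by
  obtain ⟨f, hf⟩ := ex_frob (k := k) R i
  rw [← hf, ← hf, ← hf, map_add]

theorem aeval_q {R : Type} [CommRing R] [Algebra k R] (x : R) (P : k[X]) (i : ℕ) :
    (aeval x P) ^ (Fintype.card k ^ i) = aeval (x ^ (Fintype.card k ^ i)) P := by
  obtain ⟨f, hf⟩ := ex_frob (k := k) R i
  rw [← hf, ← hf]
  exact (Polynomial.aeval_algHom_apply f x P).symm

theorem prod_q {R ι : Type} [CommRing R] (s : Finset ι) (f : ι → R) (n : ℕ) :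
    (∏ i ∈ s, f i) ^ n = ∏ i ∈ s, f i ^ n := (Finset.prod_pow _ _ _).symm

theorem pow_pow_q {R : Type} [Monoid R] (x : R) (q i j : ℕ) :
    (x ^ (q ^ i)) ^ (q ^ j) = x ^ (q ^ (i + j)) := by
  rw [← pow_mul, ← pow_add]

/-- shifting a product over a class of residues -/
theorem prod_shift {M : Type} [CommMonoid M] (f : ℕ → M) (d g : ℕ) (hd : 0 < d) (hg : g ∣ d)
    (hf : ∀ n m, n ≡ m [MOD d] → f n = f m) (c s : ℕ) :
    ∏ l ∈ (range d).filter (fun l => l % g = c % g), f (l + s) =
      ∏ l ∈ (range d).filter (fun l => l % g = (c + s) % g), f l := by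
  refine Finset.prod_bij' (fun l _ => (l + s) % d) (fun m _ => (m + (d - s % d)) % d) ?_ ?_ ?_ ?_ ?_
  · intro l hl
    rw [mem_filter, mem_range] at hl ⊢
    refine ⟨Nat.mod_lt _ hd, ?_⟩
    rw [Nat.mod_mod_of_dvd _ hg]
    exact Nat.ModEq.add_right s hl.2
  · intro m hm
    rw [mem_filter, mem_range] at hm ⊢
    refine ⟨Nat.mod_lt _ hd, ?_⟩
    rw [Nat.mod_mod_of_dvd _ hg]
    have h1 : (s + (d - s % d)) ≡ 0 [MOD g] := by
      refine (Nat.ModEq.of_dvd hg ?_)
      have h2 : s % d ≤ d := (Nat.mod_lt _ hd).le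
      calc s + (d - s % d) ≡ s % d + (d - s % d) [MOD d] :=
            Nat.ModEq.add_right _ (Nat.mod_modEq s d).symm
        _ = d := by omega
        _ ≡ 0 [MOD d] := by simp [Nat.ModEq]
    have h2 : m + (d - s % d) ≡ (c + s) + (d - s % d) [MOD g] := Nat.ModEq.add_right _ hm.2
    have h3 : (c + s) + (d - s % d) ≡ c + 0 [MOD g] := by
      rw [add_assoc]
      exact Nat.ModEq.add_left c h1
    exact h2.trans h3
  · intro l hl
    rw [mem_filter, mem_range] at hl
    have h2 : s % d < d := Nat.mod_lt _ hd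
    show ((l + s) % d + (d - s % d)) % d = l
    rw [Nat.mod_add_mod]
    have h3 : l + s + (d - s % d) ≡ l [MOD d] := by
      have h4 : s + (d - s % d) ≡ 0 [MOD d] := by
        calc s + (d - s % d) ≡ s % d + (d - s % d) [MOD d] :=
              Nat.ModEq.add_right _ (Nat.mod_modEq s d).symm
          _ = d := by omega
          _ ≡ 0 [MOD d] := by simp [Nat.ModEq]
      rw [add_assoc]
      exact Nat.ModEq.add_left l h4
    rw [h3, Nat.mod_eq_of_lt hl.1]
  · intro m hm
    rw [mem_filter, mem_range] at hm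
    have h2 : s % d < d := Nat.mod_lt _ hd
    show ((m + (d - s % d)) % d + s) % d = m
    rw [Nat.mod_add_mod]
    have h3 : m + (d - s % d) + s ≡ m [MOD d] := by
      have h4 : (d - s % d) + s ≡ 0 [MOD d] := by
        calc (d - s % d) + s ≡ (d - s % d) + s % d [MOD d] :=
              Nat.ModEq.add_left _ (Nat.mod_modEq s d).symm
          _ = d := by omega
          _ ≡ 0 [MOD d] := by simp [Nat.ModEq]
      rw [add_assoc]
      exact Nat.ModEq.add_left m h4
    rw [h3, Nat.mod_eq_of_lt hm.1]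
  · intro l hl
    exact hf _ _ (Nat.mod_modEq _ _).symm

/-- the multiples of `g` below `d` -/
theorem prod_mult {M : Type} [CommMonoid M] (f : ℕ → M) (d g : ℕ) (hg0 : 0 < g) (hg : g ∣ d) :
    ∏ m ∈ (range d).filter (fun m => m % g = 0), f m = ∏ i ∈ range (d / g), f (g * i) := by
  refine Finset.prod_bij' (fun m _ => m / g) (fun i _ => g * i) ?_ ?_ ?_ ?_ ?_
  · intro m hm
    rw [mem_filter, mem_range] at hm
    rw [mem_range]
    exact Nat.div_lt_div_of_lt_of_dvd hg hm.1
  · intro i hi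
    rw [mem_range] at hi
    rw [mem_filter, mem_range]
    refine ⟨?_, by simp⟩
    calc g * i < g * (d / g) := (Nat.mul_lt_mul_left hg0).2 hi
      _ = d := Nat.mul_div_cancel' hg
  · intro m hm
    rw [mem_filter, mem_range] at hm
    exact Nat.mul_div_cancel' (Nat.dvd_of_mod_eq_zero hm.2)
  · intro i hi
    exact Nat.mul_div_cancel_left i hg0
  · intro m hm
    rw [mem_filter, mem_range] at hm
    show f m = f (g * (m / g))
    rw [Nat.mul_div_cancel' (Nat.dvd_of_mod_eq_zero hm.2)]

end basic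

/-- an element of `K_d` is a value at the root of an irreducible polynomial of degree `d` -/
theorem inK_iff {k : Type} [Field k] [Fintype k] {P : k[X]} (hm : P.Monic) (hi : Irreducible P) {θ : Om k}
    (hθ : aeval θ P = 0) (hK : inK k P.natDegree θ) (y : Om k) :
    inK k P.natDegree y ↔ ∃ z : k[X], y = aeval θ z := by
  obtain ⟨q, hq⟩ : ∃ q, q = Fintype.card k := ⟨_, rfl⟩
  have hq1 : 1 < q := by rw [hq]; exact Fintype.one_lt_card
  have hback : ∀ z : k[X], inK k P.natDegree (aeval θ z) := by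
    intro z
    show (aeval θ z) ^ _ = _
    rw [aeval_q]
    have : θ ^ (Fintype.card k ^ P.natDegree) = θ := hK
    rw [this]
  have hd : 0 < P.natDegree := hi.natDegree_pos
  haveI : Fact (Irreducible P) := ⟨hi⟩
  haveI : Module.Finite k (AdjoinRoot P) := hm.finite_adjoinRoot
  haveI : Finite (AdjoinRoot P) := Module.finite_of_finite k
  letI : Fintype (AdjoinRoot P) := Fintype.ofFinite _
  have hfr : Module.finrank k (AdjoinRoot P) = P.natDegree := by
    rw [(AdjoinRoot.powerBasis hi.ne_zero).finrank]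
    rfl
  have hcard : Fintype.card (AdjoinRoot P) = q ^ P.natDegree := by
    rw [Module.card_eq_pow_finrank (K := k), hfr, hq]
  let φ : AdjoinRoot P →ₐ[k] Om k := AdjoinRoot.liftAlgHom P (Algebra.ofId k (Om k)) θ (by
    have : (eval₂ (algebraMap k (Om k)) θ P) = 0 := by rw [← aeval_def]; exact hθ
    exact this)
  have hφ : ∀ z : k[X], φ (AdjoinRoot.mk P z) = aeval θ z := by
    intro z
    show AdjoinRoot.liftAlgHom P (Algebra.ofId k (Om k)) θ _ (AdjoinRoot.mk P z) = _
    simp [AdjoinRoot.liftAlgHom]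
    rfl
  have hφi : Function.Injective φ := φ.toRingHom.injective
  have hne : (X ^ (q ^ P.natDegree) - X : (Om k)[X]) ≠ 0 :=
    FiniteField.X_pow_card_sub_X_ne_zero _ (Nat.one_lt_pow hd.ne' hq1)
  have hdeg : (X ^ (q ^ P.natDegree) - X : (Om k)[X]).natDegree = q ^ P.natDegree :=
    FiniteField.X_pow_card_sub_X_natDegree_eq _ (Nat.one_lt_pow hd.ne' hq1)
  have hroot : ∀ x : Om k, x ∈ (X ^ (q ^ P.natDegree) - X : (Om k)[X]).roots.toFinset ↔
      inK k P.natDegree x := by
    intro x
    rw [Multiset.mem_toFinset, mem_roots hne, IsRoot, eval_sub, eval_pow, eval_X, sub_eq_zero, hq]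
    rfl
  have h1 : (univ.image φ) ⊆ (X ^ (q ^ P.natDegree) - X : (Om k)[X]).roots.toFinset := by
    intro z hz
    rw [Finset.mem_image] at hz
    obtain ⟨x, _, rfl⟩ := hz
    rw [hroot]
    obtain ⟨z, rfl⟩ := AdjoinRoot.mk_surjective x
    rw [hφ]
    exact hback z
  have h2 : (X ^ (q ^ P.natDegree) - X : (Om k)[X]).roots.toFinset.card ≤ (univ.image φ).card := by
    rw [Finset.card_image_of_injective _ hφi, Finset.card_univ, hcard]
    exact ((Multiset.toFinset_card_le _).trans (card_roots' _)).trans hdeg.le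
  have h3 := Finset.eq_of_subset_of_card_le h1 h2
  rw [← hroot, ← h3, Finset.mem_image]
  constructor
  · rintro ⟨x, _, rfl⟩
    obtain ⟨z, rfl⟩ := AdjoinRoot.mk_surjective x
    exact ⟨z, hφ z⟩
  · rintro ⟨z, rfl⟩
    exact ⟨_, Finset.mem_univ _, hφ z⟩

end Pool.Agent.Q16.GR
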