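import Pool.Agent.Q16.GR.INJ
import Pool.Agent.Q177.GT.Cnt
import Pool.Agent.Q24.GT.SPN

/-!
# Project GR, job CNR: the own symbols of a prime (helper16)
Adapted from the case of prime degree (helper177, helper24).
-/

set_option autoImplicit false
set_option linter.all false

open scoped Classical
open Finset Polynomial

namespace Pool.Agent.Q16.GR

open Pool.Agent.Q269.GR
open Pool.Agent.Y164.PS (L sg sg_zero sg_one sg_add sg_sum)
open Pool.Agent.H341R2.Sharp (Mon)
open Pool.Agent.Q177.GT (exists_P geom_le prod_deg not_sq)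

section count

variable {k : Type} [Field k] [Fintype k] {E : Type} [Field E] [Fintype E] [Algebra k E]
  {j : E →ₐ[k] Om k} {d : ℕ}

/-- the number of the elements with given symbols -/
theorem cnt_gen (hk : ringChar k ≠ 2) (hj : ∀ x : Om k, inK k d x ↔ x ∈ Set.range j)
    (hcard : Fintype.card E = Fintype.card k ^ d) (hd : 0 < d)
    {Y : Type} [AddCommGroup Y] [Module F2 Y] (β : ℕ → Y) (y : Y) (u : ℕ) (hu : u ≤ (d - 1) / 2)
    (T : Finset E) (hT : ∀ x ∈ T, (∀ i, 1 ≤ i → i ≤ (d - 1) / 2 → x ^ (Fintype.card k ^ i) ≠ x) ∧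
      ∑ i ∈ Finset.Icc 1 ((d - 1) / 2), sgd k d (j (x - x ^ (Fintype.card k ^ i))) • β i = y) :
    (T.card : ℝ) ≤
      (Fintype.card k : ℝ) ^ d *
        (2 ^ u / (Nat.card (Submodule.span F2 (β '' Set.Icc 1 ((d - 1) / 2))) : ℝ) +
        2 / (Fintype.card k : ℝ) ^ u) := by
  obtain ⟨M, hM⟩ : ∃ M, M = (d - 1) / 2 := ⟨_, rfl⟩
  rw [← hM] at hu hT ⊢
  obtain ⟨q, hq⟩ : ∃ q, q = Fintype.card k := ⟨_, rfl⟩
  rw [← hq] at hT ⊢
  have hq2 : 2 ≤ q := by rw [hq]; exact Fintype.one_lt_card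
  have hMm : M < d := by omega
  have hcE : Fintype.card E = q ^ d := by rw [hcard, hq]
  have hcharE : ringChar E ≠ 2 := ringChar_E (k := k) hk
  have hqE : (q : E) = 0 := by
    have h1 : ((Fintype.card k : ℕ) : k) = 0 := FiniteField.cast_card_eq_zero k
    have h2 := congrArg (algebraMap k E) h1
    rw [map_natCast, map_zero, ← hq] at h2
    exact h2
  have hq0 : (0 : ℝ) < q := by exact_mod_cast (by omega : 0 < q)
  obtain ⟨r, P, bb, hbb, hPb, hcard', hdual⟩ := exists_P Y β M u hu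
  have hYfin : 0 < Nat.card (Submodule.span F2 (β '' Set.Icc 1 M)) := by
    have : FiniteDimensional F2 (Submodule.span F2 (β '' Set.Icc 1 M)) :=
      FiniteDimensional.span_of_finite F2 ((Set.finite_Icc 1 M).image β)
    have : Finite (Submodule.span F2 (β '' Set.Icc 1 M)) := Module.finite_of_finite F2
    exact Nat.card_pos
  by_cases hyY : y ∈ Submodule.span F2 (β '' Set.Icc 1 M)
  swap
  · have hTe : T = ∅ := by
      rw [Finset.eq_empty_iff_forall_notMem]
      intro θ hθ
      replace hθ := hT θ hθ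
      apply hyY
      rw [← hθ.2]
      refine Submodule.sum_mem _ fun i hi => Submodule.smul_mem _ _ (Submodule.subset_span ?_)
      rw [Finset.mem_Icc] at hi
      exact ⟨i, ⟨hi.1, hi.2⟩, rfl⟩
    rw [hTe, Finset.card_empty]
    push_cast
    positivity
  -- the vectors
  obtain ⟨a, ha⟩ : ∃ a : ℕ → Fin r → F2, ∀ i, a i = P (bb i) := ⟨fun i => P (bb i), fun _ => rfl⟩
  obtain ⟨y0, hy0⟩ : ∃ y0, y0 = P ⟨y, hyY⟩ := ⟨_, rfl⟩
  have hTv : ∀ θ ∈ T, ∑ i ∈ Finset.Icc 1 (M - u), sgd k d (j (θ - θ ^ (q ^ i))) • a i = y0 := by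
    intro θ hθ
    replace hθ := hT θ hθ
    have h1 : (∑ i ∈ Finset.Icc 1 M, sgd k d (j (θ - θ ^ (q ^ i))) • bb i) = ⟨y, hyY⟩ := by
      apply Subtype.ext
      rw [← Submodule.subtype_apply, map_sum]
      refine Eq.trans ?_ hθ.2
      refine Finset.sum_congr rfl fun i hi => ?_
      rw [Finset.mem_Icc] at hi
      rw [map_smul, Submodule.subtype_apply, hbb i hi.1 hi.2]
    have h2 := congrArg P h1
    rw [map_sum, ← hy0] at h2
    rw [← h2]
    refine Finset.sum_subset_zero_on_sdiff ?_ ?_ ?_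
    · intro i hi
      rw [Finset.mem_Icc] at hi ⊢
      omega
    · intro i hi
      rw [Finset.mem_sdiff, Finset.mem_Icc, Finset.mem_Icc] at hi
      rw [map_smul, hPb i (by omega) hi.1.2, smul_zero]
    · intro i _
      rw [map_smul, ha]
  -- the functions
  let U : ℕ → (Fin r → F2) → F2 := fun i c => if i = 0 then ∑ l, c l * y0 l else ∑ l, c l * a i l
  have hU : ∀ i c c', U i (c + c') = U i c + U i c' := by
    intro i c c'
    show (if i = 0 then ∑ l, (c + c') l * y0 l else ∑ l, (c + c') l * a i l) =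
      (if i = 0 then ∑ l, c l * y0 l else ∑ l, c l * a i l) +
      (if i = 0 then ∑ l, c' l * y0 l else ∑ l, c' l * a i l)
    split_ifs
    · rw [← sum_add_distrib]
      exact sum_congr rfl fun l _ => by rw [Pi.add_apply, add_mul]
    · rw [← sum_add_distrib]
      exact sum_congr rfl fun l _ => by rw [Pi.add_apply, add_mul]
  let t : E → ℕ → ℝ := fun x i => if i = 0 then -1 else (quadraticChar E (x - x ^ (q ^ i)) : ℝ)
  have ht : ∀ x i, t x i = 0 ∨ t x i = 1 ∨ t x i = -1 := by
    intro x i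
    show (if i = 0 then -1 else (quadraticChar E (x - x ^ (q ^ i)) : ℝ)) = 0 ∨
      (if i = 0 then -1 else (quadraticChar E (x - x ^ (q ^ i)) : ℝ)) = 1 ∨
      (if i = 0 then -1 else (quadraticChar E (x - x ^ (q ^ i)) : ℝ)) = -1
    by_cases h0 : i = 0
    · right; right; rw [if_pos h0]
    · rw [if_neg h0]
      by_cases h : x - x ^ (q ^ i) = 0
      · left; rw [quadraticChar_eq_zero_iff.2 h]; norm_num
      · rcases quadraticChar_dichotomy h with h | h <;> rw [h] <;> norm_num
  let J : Finset ℕ := Finset.Icc 0 (M - u)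
  have hJ : ∀ (φ : ℕ → ℝ), ∏ i ∈ J, φ i = φ 0 * ∏ i ∈ Finset.Icc 1 (M - u), φ i := by
    intro φ
    show ∏ i ∈ Finset.Icc 0 (M - u), φ i = _
    rw [← Finset.mul_prod_Ioc_eq_prod_Icc (Nat.zero_le _)]
    rfl
  let f : E → (Fin r → F2) → ℝ := fun x c => ∏ i ∈ J, (if U i c = 1 then t x i else 1)
  have hf0 : ∀ x, 0 ≤ ∑ c, f x c := fun x =>
    sum_nonneg_chr _ (prod_chr J U hU (fun i => t x i) (ht x)).1
      (prod_chr J U hU (fun i => t x i) (ht x)).2
  have hfT : ∀ x ∈ T, ∑ c, f x c = 2 ^ r := by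
    intro x hx
    have hv := hTv x hx
    replace hx := hT x hx
    have h3 : ∀ c, f x c = 1 := by
      intro c
      have h4 : ∀ i ∈ Finset.Icc 1 (M - u), (if U i c = 1 then t x i else 1) =
          sg (U i c * sgd k d (j (x - x ^ (q ^ i)))) := by
        intro i hi
        rw [Finset.mem_Icc] at hi
        have h5 : t x i = sg (sgd k d (j (x - x ^ (q ^ i)))) := by
          show (if i = 0 then -1 else (quadraticChar E (x - x ^ (q ^ i)) : ℝ)) = _
          rw [if_neg (by omega)]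
          refine quad_j hcharE hj ?_
          exact sub_ne_zero.2 (hx.1 i hi.1 (by omega)).symm
        rcases F2c (U i c) with h | h
        · rw [h, if_neg (by decide), zero_mul, sg_zero]
        · rw [h, if_pos rfl, one_mul, h5]
      show ∏ i ∈ J, (if U i c = 1 then t x i else 1) = 1
      rw [hJ, prod_congr rfl h4, ← sg_sum]
      have h6 : ∑ i ∈ Finset.Icc 1 (M - u), U i c * sgd k d (j (x - x ^ (q ^ i))) = U 0 c := by
        show _ = (if (0 : ℕ) = 0 then ∑ l, c l * y0 l else ∑ l, c l * a 0 l)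
        rw [if_pos rfl, ← hv]
        simp only [Finset.sum_apply, Pi.smul_apply, smul_eq_mul, Finset.mul_sum]
        rw [sum_comm]
        refine sum_congr rfl fun i hi => ?_
        rw [Finset.mem_Icc] at hi
        show (if i = 0 then ∑ l, c l * y0 l else ∑ l, c l * a i l) * _ = _
        rw [if_neg (by omega), sum_mul]
        exact sum_congr rfl fun l _ => by ring
      rw [h6]
      have h7 : t x 0 = -1 := if_pos rfl
      rcases F2c (U 0 c) with h | h
      · rw [h, if_neg (by decide), sg_zero, mul_one]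
      · rw [h, if_pos rfl, sg_one, h7]; norm_num
    rw [sum_congr rfl fun c _ => h3 c, sum_const, card_univ, nsmul_eq_mul, mul_one,
      Fintype.card_fun, Fintype.card_fin, ZMod.card]
    push_cast
    rfl
  have hlow : (2 : ℝ) ^ r * (T.card : ℝ) ≤ ∑ c, ∑ x, f x c := by
    rw [sum_comm]
    calc (2 : ℝ) ^ r * T.card = ∑ x ∈ T, ∑ c, f x c := by
          rw [sum_congr rfl hfT, sum_const, nsmul_eq_mul, mul_comm]
      _ ≤ ∑ x, ∑ c, f x c :=
          sum_le_sum_of_subset_of_nonneg (subset_univ _) fun x _ _ => hf0 x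
  -- the upper bound
  obtain ⟨B, hB⟩ : ∃ B : ℝ, B = 2 * (q : ℝ) ^ d / (q : ℝ) ^ u := ⟨_, rfl⟩
  have hB0 : 0 ≤ B := by rw [hB]; positivity
  have hc0 : ∑ x, f x 0 = (q : ℝ) ^ d := by
    have h1 : ∀ x, f x 0 = 1 := by
      intro x
      show ∏ i ∈ J, (if U i 0 = 1 then t x i else 1) = 1
      apply prod_eq_one
      intro i _
      rw [if_neg]
      show ¬ ((if i = 0 then ∑ l, (0 : Fin r → F2) l * y0 l else ∑ l, (0 : Fin r → F2) l * a i l) = 1)
      simp
    rw [sum_congr rfl fun x _ => h1 x, sum_const, card_univ, nsmul_eq_mul, mul_one, hcE]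
    push_cast
    rfl
  have hc1 : ∀ c : Fin r → F2, c ≠ 0 → ∑ x, f x c ≤ B := by
    intro c hc
    obtain ⟨i₀, hi1, hi2, hi3⟩ := hdual c hc
    obtain ⟨I, hI⟩ : ∃ I : Finset ℕ, I = (Finset.Icc 1 (M - u)).filter fun i => U i c = 1 := ⟨_, rfl⟩
    have hI1 : ∀ i ∈ I, 1 ≤ i := by
      intro i hi
      rw [hI, mem_filter, Finset.mem_Icc] at hi
      exact hi.1.1
    have hIne : I.Nonempty := by
      refine ⟨i₀, ?_⟩
      rw [hI, mem_filter, Finset.mem_Icc]
      refine ⟨⟨hi1, hi2⟩, ?_⟩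
      show (if i₀ = 0 then ∑ l, c l * y0 l else ∑ l, c l * a i₀ l) = 1
      rw [if_neg (by omega), ha]
      exact hi3
    obtain ⟨g, hg⟩ : ∃ g : E[X], g = ∏ i ∈ I, (X - X ^ (q ^ i)) := ⟨_, rfl⟩
    have h1 : ∀ x : E, f x c = (if U 0 c = 1 then -1 else 1) * (quadraticChar E (g.eval x) : ℝ) := by
      intro x
      show ∏ i ∈ J, (if U i c = 1 then t x i else 1) = _
      rw [hJ]
      have e1 : (if U 0 c = 1 then t x 0 else 1) = (if U 0 c = 1 then (-1 : ℝ) else 1) := by
        have h7 : t x 0 = -1 := if_pos rfl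
        rw [h7]
      rw [e1]
      congr 1
      rw [hg, eval_prod, map_prod, hI, ← Finset.prod_filter]
      push_cast
      refine Finset.prod_congr rfl fun i hi => ?_
      rw [mem_filter, Finset.mem_Icc] at hi
      show (if i = 0 then -1 else (quadraticChar E (x - x ^ (q ^ i)) : ℝ)) = _
      rw [if_neg (by omega), eval_sub, eval_pow, eval_X]
    have hdeg := prod_deg (E := E) q hq2 I hI1
    rw [← hg] at hdeg
    have hd1 : 1 ≤ g.natDegree := by
      rw [hdeg]
      obtain ⟨i, hi⟩ := hIne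
      exact (Nat.one_le_pow _ _ (by omega)).trans
        (Finset.single_le_sum (f := fun i => q ^ i) (fun _ _ => Nat.zero_le _) hi)
    have hd2 : g.natDegree ≤ 2 * q ^ (M - u) := by
      rw [hdeg]
      refine le_trans (Finset.sum_le_sum_of_subset ?_) (geom_le q hq2 (M - u))
      rw [hI]
      exact Finset.filter_subset _ _
    have hW := Pool.Agent.H341R2.Sharp.weil_sharp hcharE g hd1 (fun a h => by
      rw [hg]
      exact not_sq q hq2 hqE I hI1 hIne a h)
    have h4 : |∑ x : E, (quadraticChar E (g.eval x) : ℝ)| ≤ B := by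
      refine hW.trans ?_
      have h5 : Real.sqrt (Fintype.card E) ≤ (q : ℝ) ^ (d - u - (M - u)) := by
        rw [hcE]
        push_cast
        apply Real.sqrt_le_sqrt (x := (q : ℝ) ^ d) (y := ((q : ℝ) ^ (d - u - (M - u))) ^ 2) _ |>.trans
        · rw [Real.sqrt_sq (by positivity)]
        · rw [← pow_mul]
          exact pow_le_pow_right₀ (by exact_mod_cast (by omega : 1 ≤ q)) (by omega)
      have h6 : (g.natDegree : ℝ) - 1 ≤ 2 * (q : ℝ) ^ (M - u) := by
        have : (g.natDegree : ℝ) ≤ 2 * (q : ℝ) ^ (M - u) := by exact_mod_cast hd2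
        linarith
      have h7 : (0 : ℝ) ≤ (g.natDegree : ℝ) - 1 := by
        have : (1 : ℝ) ≤ g.natDegree := by exact_mod_cast hd1
        linarith
      calc ((g.natDegree : ℝ) - 1) * Real.sqrt (Fintype.card E) ≤
            (2 * (q : ℝ) ^ (M - u)) * (q : ℝ) ^ (d - u - (M - u)) :=
          mul_le_mul h6 h5 (Real.sqrt_nonneg _) (by positivity)
        _ = 2 * (q : ℝ) ^ (d - u) := by
          rw [mul_assoc, ← pow_add]
          congr 2
          omega
        _ = B := by
          rw [hB, eq_div_iff (by positivity), mul_assoc, ← pow_add]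
          congr 2
          omega
    rw [sum_congr rfl fun x _ => h1 x, ← mul_sum]
    split_ifs
    · rw [neg_one_mul]
      exact (neg_le_abs _).trans h4
    · rw [one_mul]
      exact (le_abs_self _).trans h4
  have hup : ∑ c, ∑ x, f x c ≤ (q : ℝ) ^ d + 2 ^ r * B := by
    rw [← Finset.add_sum_erase Finset.univ _ (Finset.mem_univ (0 : Fin r → F2)), hc0]
    have h1 : ∑ c ∈ Finset.univ.erase (0 : Fin r → F2), ∑ x, f x c ≤
        ∑ c ∈ Finset.univ.erase (0 : Fin r → F2), B :=
      Finset.sum_le_sum fun c hc => hc1 c (Finset.ne_of_mem_erase hc)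
    rw [Finset.sum_const, nsmul_eq_mul] at h1
    have h2 : ((Finset.univ.erase (0 : Fin r → F2)).card : ℝ) ≤ 2 ^ r := by
      have h3 : (Finset.univ.erase (0 : Fin r → F2)).card ≤ 2 ^ r := by
        refine (Finset.card_le_card (Finset.erase_subset _ _)).trans ?_
        rw [Finset.card_univ, Fintype.card_fun, Fintype.card_fin, ZMod.card]
      exact_mod_cast h3
    have h4 := mul_le_mul_of_nonneg_right h2 hB0
    linarith
  have hfinal := hlow.trans hup
  obtain ⟨W, hW⟩ : ∃ W : ℝ, W = (Nat.card (Submodule.span F2 (β '' Set.Icc 1 M)) : ℝ) := ⟨_, rfl⟩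
  have hW0 : 0 < W := by
    rw [hW]
    exact_mod_cast hYfin
  have hWr : W ≤ 2 ^ r * 2 ^ u := by
    rw [hW]
    exact_mod_cast hcard'
  rw [← hW]
  have h2r : (0 : ℝ) < 2 ^ r := by positivity
  have e1 : (T.card : ℝ) ≤ (q : ℝ) ^ d / 2 ^ r + B := by
    rw [div_add' _ _ _ h2r.ne', le_div_iff₀ h2r]
    linarith
  have e2 : (q : ℝ) ^ d / 2 ^ r ≤ (q : ℝ) ^ d * (2 ^ u / W) := by
    rw [div_eq_mul_inv]
    apply mul_le_mul_of_nonneg_left _ (by positivity)
    rw [inv_eq_one_div, div_le_div_iff₀ h2r hW0]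
    linarith
  have e3 : B = (q : ℝ) ^ d * (2 / (q : ℝ) ^ u) := by
    rw [hB]
    ring
  rw [mul_add, ← e3]
  linarith

end count

section own

variable {k : Type} [Field k] [Fintype k] {r : ℕ} {F : Type} [Field F] [Fintype F] [Algebra F2 F] {ξ : F}

theorem charF : CharP F 2 := charP_of_injective_algebraMap (algebraMap F2 F).injective 2

theorem two_cancel (x : F) : x + x = 0 := by
  haveI := charF (F := F)
  exact CharTwo.add_self_eq_zero x

/-- the formula for the own symbols -/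
theorem own_eq (hk : ringChar k ≠ 2) (hq : IsSquare (-1 : k)) (h1 : S_SGD) (h2 : S_RTP) (hξ : IsRt r ξ)
    {P : k[X]} (hm : P.Monic) (hi : Irreducible P) {d : ℕ} (hP : P.natDegree = d) (hrd : r ∣ d) :
    own r ξ P = ∑ i ∈ Finset.Icc 1 ((d - 1) / 2),
      sgd k d (rt P - rt P ^ (Fintype.card k ^ i)) • (ξ ^ i + ξ⁻¹ ^ i) := by
  have hd : 0 < d := by rw [← hP]; exact hi.natDegree_pos
  have hr0 := r_pos hξ
  have hξr := pow_r hξ
  have hξ0 : ξ ≠ 0 := by
    rintro rfl
    rw [zero_pow hr0.ne'] at hξr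
    exact zero_ne_one hξr
  obtain ⟨q, hqq⟩ : ∃ q, q = Fintype.card k := ⟨_, rfl⟩
  obtain ⟨s, hs⟩ : ∃ s : ℕ → F2, ∀ l, s l = sgd k d (rt P - rt P ^ (Fintype.card k ^ l)) :=
    ⟨_, fun _ => rfl⟩
  have hK : (rt P) ^ (Fintype.card k ^ d) = rt P := by
    have := (h2 k P hm hi).2.1
    rw [hP] at this
    exact this
  have hne : ∀ l, 0 < l → l < d → rt P - rt P ^ (Fintype.card k ^ l) ≠ 0 := by
    intro l h0 hl he
    have h3 : rt P ^ (Fintype.card k ^ 0) = rt P ^ (Fintype.card k ^ l) := by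
      rw [pow_zero, pow_one]; exact sub_eq_zero.1 he
    have h4 := ((h2 k P hm hi).2.2.2.1 0 l).1 h3
    rw [hP] at h4
    have h5 : 0 % d = l % d := h4
    rw [Nat.zero_mod, Nat.mod_eq_of_lt hl] at h5
    omega
  have hinK : ∀ l, inK k d (rt P - rt P ^ (Fintype.card k ^ l)) := by
    intro l
    show (rt P - rt P ^ (Fintype.card k ^ l)) ^ (Fintype.card k ^ d) = _
    rw [sub_q, hK, pow_pow_q, add_comm, ← pow_pow_q, hK]
  have hSG := h1 k hk d hd
  have hrefl : ∀ l, l ≤ d → s (d - l) = s l := by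
    intro l hl
    rw [hs, hs, ← hSG.2.1 (rt P - rt P ^ (Fintype.card k ^ (d - l))) l (hinK _), sub_q, pow_pow_q,
      Nat.sub_add_cancel hl, hK, ← hSG.2.2.2.1 hq _ (hinK l), neg_sub]
  -- the sum over all indices
  have e1 : own r ξ P = ∑ l ∈ range d, (cf (s l) : F) * (1 + ξ ^ l) := by
    have e2 : ∀ c ∈ range r, (cf (sy r P P c) : F) * (1 + ξ ^ c) =
        ∑ l ∈ (range d).filter (fun l => l % r = c), (cf (s l) : F) * (1 + ξ ^ l) := by
      intro c hc
      rcases Nat.eq_zero_or_pos c with rfl | hc0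
      · rw [pow_zero, two_cancel, mul_zero]
        symm
        apply sum_eq_zero
        intro l hl
        rw [mem_filter] at hl
        rw [pow_eq_pow_mod l hξr, hl.2, pow_zero, two_cancel, mul_zero]
      · have e3 := sgd_prod hk h1 hd ((range d).filter (fun l => l % r = c))
          (fun l => rt P - rt P ^ (Fintype.card k ^ l)) (fun l _ => hinK l) (fun l hl => by
            rw [mem_filter, mem_range] at hl
            refine hne l ?_ hl.1
            rcases Nat.eq_zero_or_pos l with h | h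
            · rw [h, Nat.zero_mod] at hl
              omega
            · exact h)
        have e4 : sy r P P c = ∑ l ∈ (range d).filter (fun l => l % r = c), s l := by
          rw [sum_congr rfl fun l _ => hs l, ← e3.2, ← hP]
          rfl
        rw [e4, cf_sum, sum_mul]
        refine sum_congr rfl fun l hl => ?_
        rw [mem_filter] at hl
        rw [pow_eq_pow_mod l hξr, hl.2]
    unfold own
    rw [sum_congr rfl e2]
    exact Finset.sum_fiberwise_of_maps_to (t := range r) (g := fun l => l % r)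
      (fun l _ => mem_range.2 (Nat.mod_lt _ hr0)) (fun l => (cf (s l) : F) * (1 + ξ ^ l))
  rw [e1]
  obtain ⟨h, hh⟩ : ∃ h : ℕ → F, ∀ l, h l = (cf (s l) : F) * (1 + ξ ^ l) := ⟨_, fun _ => rfl⟩
  rw [sum_congr rfl fun l _ => (hh l).symm]
  have hdvd : ∀ l, r ∣ l → h l = 0 := by
    intro l hl
    obtain ⟨t, rfl⟩ := hl
    rw [hh, pow_mul, hξr, one_pow, two_cancel, mul_zero]
  -- split
  have e5 : ∑ l ∈ range d, h l = ∑ l ∈ Finset.Icc 1 ((d - 1) / 2), h l +
      ∑ l ∈ (range d).filter (fun l => d < 2 * l), h l := by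
    have e6 : (range d).filter (fun l => ¬ d < 2 * l) ⊇ Finset.Icc 1 ((d - 1) / 2) := by
      intro l hl
      rw [Finset.mem_Icc] at hl
      rw [mem_filter, mem_range]
      omega
    rw [← Finset.sum_filter_add_sum_filter_not (range d) (fun l => d < 2 * l), add_comm]
    congr 1
    symm
    refine Finset.sum_subset e6 ?_
    intro l hl hl'
    rw [mem_filter, mem_range] at hl
    rw [Finset.mem_Icc] at hl'
    have h3 : l = 0 ∨ 2 * l = d := by omega
    rcases h3 with h3 | h3
    · rw [h3]; exact hdvd 0 (dvd_zero _)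
    · apply hdvd
      have h4 : r ∣ 2 * l := by rw [h3]; exact hrd
      exact (Nat.Coprime.dvd_of_dvd_mul_left (Nat.coprime_two_right.2 hξ.odd) h4)
  have e7 : ∑ l ∈ (range d).filter (fun l => d < 2 * l), h l =
      ∑ l ∈ Finset.Icc 1 ((d - 1) / 2), h (d - l) := by
    symm
    refine Finset.sum_bij' (fun l _ => d - l) (fun l _ => d - l) ?_ ?_ ?_ ?_ ?_
    · intro l hl
      rw [Finset.mem_Icc] at hl
      rw [mem_filter, mem_range]
      omega
    · intro l hl
      rw [mem_filter, mem_range] at hl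
      rw [Finset.mem_Icc]
      omega
    · intro l hl
      rw [Finset.mem_Icc] at hl
      show d - (d - l) = l
      omega
    · intro l hl
      rw [mem_filter, mem_range] at hl
      show d - (d - l) = l
      omega
    · intro l hl
      rfl
  rw [e5, e7, ← sum_add_distrib]
  refine sum_congr rfl fun l hl => ?_
  rw [Finset.mem_Icc] at hl
  have hl' : l ≤ d := by omega
  rw [hh, hh, hrefl l hl', ← hs, ← cf_mul_eq_smul]
  have e8 : ξ ^ (d - l) = ξ⁻¹ ^ l := by
    rw [inv_pow]
    refine eq_inv_of_mul_eq_one_left ?_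
    obtain ⟨t, ht⟩ := hrd
    rw [← pow_add, Nat.sub_add_cancel hl', ht, pow_mul, hξr, one_pow]
  rw [e8]
  have e9 := two_cancel (cf (s l) : F)
  linear_combination e9

end own

theorem t_CNR (h0 : S_FLD) (h1 : S_SGD) (h2 : S_RTP) (h4 : S_IRC) : S_CNR := by
  intro k _ _ hk hsq hq5 r F _ _ _ ξ hξ d hd hrd
  obtain ⟨q, hq⟩ : ∃ q, q = Fintype.card k := ⟨_, rfl⟩
  obtain ⟨E, _, _, _, j, hcard, hfr, hj⟩ := h0 k d hd
  have hr0 := r_pos hξ
  have hξr := pow_r hξ
  have hq0 : (0 : ℝ) < Fintype.card k := by exact_mod_cast (by omega : 0 < Fintype.card k)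
  obtain ⟨f, hf⟩ : ∃ f, f = orderOf (2 : ZMod r) := ⟨_, rfl⟩
  rw [← hf]
  obtain ⟨u, hu⟩ : ∃ u, u = f / 4 := ⟨_, rfl⟩
  rw [← hu]
  have hrle : r ≤ d := Nat.le_of_dvd hd hrd
  have hfle : f ≤ r := by
    have h5 : minpoly F2 ξ ∣ X ^ r - 1 := minpoly.dvd _ _ (by simp [hξr])
    have h6 : (X ^ r - 1 : F2[X]).natDegree = r := by
      have := natDegree_X_pow_sub_C (R := F2) (n := r) (r := 1)
      rwa [C_1] at this
    have h7 : (X ^ r - 1 : F2[X]) ≠ 0 := by
      intro h
      rw [h, natDegree_zero] at h6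
      omega
    have h8 := natDegree_le_of_dvd h5 h7
    rw [h6] at h8
    rw [hf]
    exact (minpoly_deg hξ).trans h8
  have hr3 : 3 ≤ r := by
    have := hξ.lt
    obtain ⟨t, ht⟩ := hξ.odd
    omega
  have hud : u ≤ (d - 1) / 2 := by omega
  -- the span
  haveI := charF (F := F)
  have hne1 : ξ ≠ 1 := by
    rintro rfl
    have := hξ.ord
    rw [orderOf_one] at this
    have := hξ.lt
    omega
  obtain ⟨W, hW⟩ : ∃ W : ℕ, W = Nat.card (Submodule.span F2 ((fun i : ℕ => ξ ^ i + ξ⁻¹ ^ i) ''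
    Set.Icc 1 ((d - 1) / 2))) := ⟨_, rfl⟩
  have hWf : 2 ^ f ≤ W ^ 2 := by
    have h5 := Pool.Agent.Q24.GT.card_le hξ.odd hξr hne1
    have h6 : Nat.card (Pool.Agent.Q24.GT.YY ξ r) ≤ W := by
      rw [hW]
      have h7 : Pool.Agent.Q24.GT.YY ξ r ≤ Submodule.span F2 ((fun i : ℕ => ξ ^ i + ξ⁻¹ ^ i) ''
          Set.Icc 1 ((d - 1) / 2)) := by
        unfold Pool.Agent.Q24.GT.YY
        rw [Submodule.span_le]
        rintro _ ⟨i, hi, rfl⟩
        refine Submodule.subset_span ⟨i, ⟨hi.1, ?_⟩, ?_⟩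
        · have := hi.2
          omega
        · show ξ ^ i + ξ⁻¹ ^ i = ξ ^ i + ξ ^ (r - i)
          rw [Pool.Agent.Q24.GT.pow_sub_m hr0.ne' hξr (by have := hi.2; omega)]
      exact Nat.card_le_card_of_injective _ (Submodule.inclusion_injective h7)
    calc 2 ^ f ≤ 2 ^ (minpoly F2 ξ).natDegree :=
          Nat.pow_le_pow_right (by norm_num) (by rw [hf]; exact minpoly_deg hξ)
      _ ≤ (Nat.card (Pool.Agent.Q24.GT.YY ξ r)) ^ 2 := h5
      _ ≤ W ^ 2 := Nat.pow_le_pow_left h6 2
  have hWu : 2 ^ (2 * u) ≤ W := by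
    have h5 : (2 ^ (2 * u)) ^ 2 ≤ W ^ 2 := by
      refine le_trans ?_ hWf
      rw [← pow_mul]
      exact Nat.pow_le_pow_right (by norm_num) (by omega)
    exact (Nat.pow_le_pow_iff_left (by norm_num)).1 h5
  have hWr : (2 : ℝ) ^ (2 * u) ≤ W := by exact_mod_cast hWu
  have hconst : (2 : ℝ) ^ u / W + 2 / (Fintype.card k : ℝ) ^ u ≤ 3 / 2 ^ u := by
    have e1 : (2 : ℝ) ^ u / W ≤ 1 / 2 ^ u := by
      rw [div_le_div_iff₀ (lt_of_lt_of_le (by positivity) hWr) (by positivity), one_mul, ← pow_add,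
        ← two_mul]
      exact hWr
    have e2 : 2 / (Fintype.card k : ℝ) ^ u ≤ 2 / 2 ^ u := by
      apply div_le_div_of_nonneg_left (by norm_num) (by positivity)
      apply pow_le_pow_left₀ (by norm_num)
      have : (5 : ℝ) ≤ Fintype.card k := by exact_mod_cast hq5
      linarith
    have e3 : (3 : ℝ) / 2 ^ u = 1 / 2 ^ u + 2 / 2 ^ u := by ring
    linarith
  -- one value
  have hval : ∀ y : F, (d : ℝ) * ((Irn k d).filter fun P => own r ξ P = y).card ≤
      (Fintype.card k : ℝ) ^ d * (3 / 2 ^ u) := by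
    intro y
    obtain ⟨S, hS⟩ : ∃ S, S = (Irn k d).filter fun P => own r ξ P = y := ⟨_, rfl⟩
    rw [← hS]
    have hSK : ∀ P' ∈ S, P'.Monic ∧ P'.natDegree = d ∧ Irreducible P' := fun P' hP' => by
      rw [hS, mem_filter] at hP'
      exact mem_Irn.1 hP'.1
    have hKK : ∀ p : k[X], p ∈ S → (rt p) ^ (Fintype.card k ^ d) = rt p := by
      intro p hp
      obtain ⟨m1, m2, m3⟩ := hSK _ hp
      have h4 : (rt p) ^ (Fintype.card k ^ p.natDegree) = rt p := (h2 k p m1 m3).2.1
      rwa [m2] at h4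
    have hpre : ∀ p : k[X] × ℕ, ∃ x : E, p.1 ∈ S → j x = rt p.1 ^ (Fintype.card k ^ p.2) := by
      intro p
      by_cases hp : p.1 ∈ S
      · have h3 : inK k d (rt p.1 ^ (Fintype.card k ^ p.2)) := by
          show (rt p.1 ^ (Fintype.card k ^ p.2)) ^ (Fintype.card k ^ d) = _
          rw [← pow_mul, mul_comm, pow_mul, hKK _ hp]
        obtain ⟨x, hx⟩ := (hj _).1 h3
        exact ⟨x, fun _ => hx⟩
      · exact ⟨0, fun h => absurd h hp⟩
    choose ψ hψ using hpre
    have hinj : Set.InjOn ψ (S ×ˢ range d : Finset (k[X] × ℕ)) := by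
      rintro ⟨A, i⟩ hA ⟨B, i'⟩ hB he
      rw [mem_coe, mem_product, mem_range] at hA hB
      have e1 := hψ (A, i) hA.1
      have e2 := hψ (B, i') hB.1
      rw [he, e2] at e1
      obtain ⟨m1, m2, m3⟩ := hSK _ hA.1
      obtain ⟨n1, n2, n3⟩ := hSK _ hB.1
      dsimp only at m1 m2 m3 n1 n2 n3 e1 hA hB
      have hAB : A = B := by
        by_contra hne
        exact (h2 k B n1 n3).2.2.2.2 A m1 m3 hne i' i e1
      subst hAB
      have h5 := ((h2 k A m1 m3).2.2.2.1 i' i).1 e1
      rw [m2] at h5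
      have h6 : i' % d = i % d := h5
      rw [Nat.mod_eq_of_lt hA.2, Nat.mod_eq_of_lt hB.2] at h6
      rw [h6]
    have hT := cnt_gen hk hj hcard hd (fun i : ℕ => ξ ^ i + ξ⁻¹ ^ i) y u hud
      ((S ×ˢ range d).image ψ) (by
        intro x hx
        rw [mem_image] at hx
        obtain ⟨⟨A, i⟩, hA, rfl⟩ := hx
        rw [mem_product, mem_range] at hA
        obtain ⟨m1, m2, m3⟩ := hSK _ hA.1
        have e1 := hψ (A, i) hA.1
        dsimp only at m1 m2 m3 e1 hA
        constructor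
        · intro l hl1 hl2 he
          have e2 := congrArg j he
          rw [map_pow, e1, pow_pow_q] at e2
          have h5 := ((h2 k A m1 m3).2.2.2.1 (i + l) i).1 e2
          rw [m2] at h5
          have h6 : i + l ≡ i + 0 [MOD d] := h5
          have h7 := Nat.ModEq.add_left_cancel' i h6
          have h8 : l % d = 0 % d := h7
          rw [Nat.zero_mod, Nat.mod_eq_of_lt (by omega)] at h8
          omega
        · have hAS := hA.1
          rw [hS, mem_filter] at hAS
          rw [← hAS.2, own_eq hk hsq h1 h2 hξ m1 m3 m2 hrd]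
          refine sum_congr rfl fun l _ => ?_
          congr 1
          rw [map_sub, map_pow, e1, pow_pow_q, add_comm, ← pow_pow_q, ← sub_q]
          refine (h1 k hk d hd).2.1 _ i ?_
          show (rt A - rt A ^ (Fintype.card k ^ l)) ^ (Fintype.card k ^ d) = _
          rw [sub_q, hKK A hA.1, pow_pow_q, add_comm, ← pow_pow_q, hKK A hA.1])
    rw [card_image_of_injOn hinj, card_product, card_range, ← hW] at hT
    push_cast at hT
    have h5 := mul_le_mul_of_nonneg_left hconst (by positivity : (0 : ℝ) ≤ (Fintype.card k : ℝ) ^ d)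
    linarith
  have h5 := (h4 k hq5 d hd).2.1
  have hcl : (((Irn k d).filter fun P => own r ξ P = 0 ∨ own r ξ P = 1).card : ℝ) ≤
      ((Irn k d).filter fun P => own r ξ P = 0).card + ((Irn k d).filter fun P => own r ξ P = 1).card := by
    rw [Finset.filter_or]
    exact_mod_cast card_union_le _ _
  have hd0 : (0 : ℝ) < d := by exact_mod_cast hd
  have h6 := hval 0
  have h7 := hval 1
  have h8 : (d : ℝ) * ((Irn k d).filter fun P => own r ξ P = 0 ∨ own r ξ P = 1).card ≤
      (Fintype.card k : ℝ) ^ d * (6 / 2 ^ u) := by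
    have := mul_le_mul_of_nonneg_left hcl hd0.le
    have e : (Fintype.card k : ℝ) ^ d * (6 / 2 ^ u) = (Fintype.card k : ℝ) ^ d * (3 / 2 ^ u) +
      (Fintype.card k : ℝ) ^ d * (3 / 2 ^ u) := by ring
    linarith
  have h9 : (Fintype.card k : ℝ) ^ d * (6 / 2 ^ u) ≤ (2 * d * (Irn k d).card) * (6 / 2 ^ u) :=
    mul_le_mul_of_nonneg_right h5 (by positivity)
  have h10 : (d : ℝ) * ((Irn k d).filter fun P => own r ξ P = 0 ∨ own r ξ P = 1).card ≤
      d * (12 / 2 ^ u * (Irn k d).card) := by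
    refine h8.trans (h9.trans (le_of_eq ?_))
    ring
  exact le_of_mul_le_mul_left h10 hd0

end Pool.Agent.Q16.GR

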