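import Pool.Agent.Q16.GR.SYP

/-!
# Project GR: character sums over groups, the powers of `ξ` (helper16)
-/

set_option autoImplicit false
set_option linter.all false

open scoped Classical
open Finset Polynomial

namespace Pool.Agent.Q16.GR

open Pool.Agent.Q269.GR
open Pool.Agent.Y164.PS (L sg sg_zero sg_one sg_add sg_sum)

theorem sum_nonneg_chr {A : Type} [AddCommGroup A] [Fintype A] (f : A → ℝ)
    (hv : ∀ a, f a = 0 ∨ f a = 1 ∨ f a = -1) (hm : ∀ a b, f b ≠ 0 → f (a + b) = f a * f b) :
    0 ≤ ∑ a, f a := by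
  by_cases h : ∃ b, f b = -1
  · obtain ⟨b, hb⟩ := h
    have h1 : ∑ a, f (a + b) = ∑ a, f a := Fintype.sum_equiv (Equiv.addRight b) _ _ fun a => rfl
    have h2 : ∑ a, f (a + b) = - ∑ a, f a := by
      rw [← Finset.sum_neg_distrib]
      refine Finset.sum_congr rfl fun a _ => ?_
      rw [hm a b (by rw [hb]; norm_num), hb]
      ring
    linarith
  · push Not at h
    refine Finset.sum_nonneg fun a _ => ?_
    rcases hv a with h1 | h1 | h1
    · rw [h1]
    · rw [h1]; norm_num
    · exact absurd h1 (h a)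

theorem F2c (a : F2) : a = 0 ∨ a = 1 := by revert a; decide

/-- products of values of a quadratic character with exponents -/
theorem prod_chr {A ι : Type} [AddCommGroup A] (s : Finset ι) (u : ι → A → F2)
    (hu : ∀ i a b, u i (a + b) = u i a + u i b) (t : ι → ℝ) (ht : ∀ i, t i = 0 ∨ t i = 1 ∨ t i = -1) :
    (∀ a, (∏ i ∈ s, (if u i a = 1 then t i else 1)) = 0 ∨ (∏ i ∈ s, (if u i a = 1 then t i else 1)) = 1 ∨
      (∏ i ∈ s, (if u i a = 1 then t i else 1)) = -1) ∧
    ∀ a b, (∏ i ∈ s, (if u i b = 1 then t i else 1)) ≠ 0 →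
      (∏ i ∈ s, (if u i (a + b) = 1 then t i else 1)) =
        (∏ i ∈ s, (if u i a = 1 then t i else 1)) * ∏ i ∈ s, (if u i b = 1 then t i else 1) := by
  constructor
  · intro a
    induction s using Finset.induction_on with
    | empty => right; left; rw [prod_empty]
    | insert j s hj ih =>
      rw [prod_insert hj]
      have h1 : (if u j a = 1 then t j else 1) = 0 ∨ (if u j a = 1 then t j else 1) = 1 ∨
          (if u j a = 1 then t j else 1) = -1 := by
        split_ifs
        · exact ht j
        · right; left; rfl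
      rcases h1 with h1 | h1 | h1 <;> rcases ih with h2 | h2 | h2 <;> rw [h1, h2] <;> norm_num
  · intro a b hb
    rw [← prod_mul_distrib]
    refine prod_congr rfl fun i hi => ?_
    have h1 := (prod_ne_zero_iff.1 hb) i hi
    have h11 : (1 : F2) + 1 = 0 := by decide
    have h01 : (0 : F2) ≠ 1 := by decide
    rw [hu]
    rcases F2c (u i b) with hb' | hb'
    · rw [hb', add_zero, if_neg h01, mul_one]
    · rw [hb', if_pos rfl] at h1
      rw [hb', if_pos rfl]
      rcases F2c (u i a) with ha | ha
      · rw [ha, zero_add, if_pos rfl, if_neg h01, one_mul]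
      · rw [ha, h11, if_neg h01, if_pos rfl]
        rcases ht i with h | h | h
        · exact absurd h h1
        · rw [h]; norm_num
        · rw [h]; norm_num

section powers

variable {r : ℕ} {F : Type} [Field F] [Fintype F] [Algebra F2 F] {ξ : F}

theorem pow_r (h : IsRt r ξ) : ξ ^ r = 1 := by
  rw [← h.ord]; exact pow_orderOf_eq_one ξ

theorem r_pos (h : IsRt r ξ) : 0 < r := lt_trans zero_lt_one h.lt

theorem minpoly_deg (h : IsRt r ξ) : orderOf (2 : ZMod r) ≤ (minpoly F2 ξ).natDegree := by
  haveI : Module.Finite F2 F := Module.Finite.of_finite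
  have hint : IsIntegral F2 ξ := Algebra.IsIntegral.isIntegral ξ
  have hfr := IntermediateField.adjoin.finrank hint
  haveI : Finite (IntermediateField.adjoin F2 {ξ}) := Subtype.finite
  haveI : Fintype (IntermediateField.adjoin F2 {ξ}) := Fintype.ofFinite _
  have hcard : Fintype.card (IntermediateField.adjoin F2 {ξ}) = 2 ^ (minpoly F2 ξ).natDegree := by
    rw [← Nat.card_eq_fintype_card, Module.natCard_eq_pow_finrank (K := F2), Nat.card_zmod, hfr]
  have h2 := FiniteField.pow_card (IntermediateField.AdjoinSimple.gen F2 ξ)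
  rw [hcard] at h2
  have h3 : ξ ^ (2 ^ (minpoly F2 ξ).natDegree) = ξ := by
    have := congrArg (fun x : IntermediateField.adjoin F2 {ξ} => (x : F)) h2
    simpa using this
  have h0 : ξ ≠ 0 := by
    rintro rfl
    have := pow_r h
    rw [zero_pow (r_pos h).ne'] at this
    exact zero_ne_one this
  have h4 : ξ ^ (2 ^ (minpoly F2 ξ).natDegree - 1) = 1 := by
    have h5 : ξ ^ (2 ^ (minpoly F2 ξ).natDegree - 1) * ξ = 1 * ξ := by
      rw [← pow_succ, Nat.sub_add_cancel Nat.one_le_two_pow, h3, one_mul]
    exact mul_right_cancel₀ h0 h5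
  have h5 : r ∣ 2 ^ (minpoly F2 ξ).natDegree - 1 := by
    rw [← h.ord]
    exact orderOf_dvd_of_pow_eq_one h4
  have h6 : (2 : ZMod r) ^ (minpoly F2 ξ).natDegree = 1 := by
    have h7 := (ZMod.natCast_eq_zero_iff (2 ^ (minpoly F2 ξ).natDegree - 1) r).2 h5
    rw [Nat.cast_sub Nat.one_le_two_pow] at h7
    push_cast at h7
    exact sub_eq_zero.1 h7
  exact Nat.le_of_dvd (minpoly.natDegree_pos hint) (orderOf_dvd_of_pow_eq_one h6)

theorem finrank_F (h : IsRt r ξ) : Module.finrank F2 F = orderOf (2 : ZMod r) := by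
  have h1 := Module.card_eq_pow_finrank (K := F2) (V := F)
  rw [h.card, ZMod.card] at h1
  exact (Nat.pow_right_injective le_rfl h1).symm

/-- the powers of `ξ` span `F` -/
theorem span_pow (h : IsRt r ξ) : Submodule.span F2 (Set.range fun c : ℕ => ξ ^ c) = ⊤ := by
  haveI : Module.Finite F2 F := Module.Finite.of_finite
  have h1 := linearIndependent_pow (K := F2) ξ
  have h2 : (minpoly F2 ξ).natDegree = Module.finrank F2 F := by
    refine le_antisymm ?_ ?_
    · exact minpoly.natDegree_le ξ
    · rw [finrank_F h]; exact minpoly_deg h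
  have h3 := h1.span_eq_top_of_card_eq_finrank' (by rw [Fintype.card_fin, h2])
  rw [eq_top_iff, ← h3]
  refine Submodule.span_mono ?_
  rintro _ ⟨i, rfl⟩
  exact ⟨i, rfl⟩

theorem exists_trace (h : IsRt r ξ) {μ : F} (hμ : μ ≠ 0) :
    ∃ c < r, Algebra.trace F2 F (μ * ξ ^ c) = 1 := by
  haveI : Module.Finite F2 F := Module.Finite.of_finite
  by_contra hcon
  push Not at hcon
  have h1 : ∀ c : ℕ, Algebra.trace F2 F (μ * ξ ^ c) = 0 := by
    intro c
    rw [pow_eq_pow_mod c (pow_r h)]
    rcases F2c (Algebra.trace F2 F (μ * ξ ^ (c % r))) with h2 | h2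
    · exact h2
    · exact absurd h2 (hcon _ (Nat.mod_lt _ (r_pos h)))
  have h2 : ∀ y : F, Algebra.trace F2 F (μ * y) = 0 := by
    intro y
    have hy : y ∈ Submodule.span F2 (Set.range fun c : ℕ => ξ ^ c) := by rw [span_pow h]; trivial
    induction hy using Submodule.span_induction with
    | mem x hx =>
      obtain ⟨c, rfl⟩ := hx
      exact h1 c
    | zero => rw [mul_zero, map_zero]
    | add x y _ _ hx hy => rw [mul_add, map_add, hx, hy, add_zero]
    | smul a x _ hx => rw [mul_smul_comm, map_smul, hx, smul_zero]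
  have h3 := traceForm_nondegenerate F2 F
  apply hμ
  exact h3.1 μ fun y => by
    rw [Algebra.traceForm_apply]
    exact h2 y

end powers

theorem cf_add {F : Type} [Field F] [Algebra F2 F] (x y : F2) : (cf (x + y) : F) = cf x + cf y := map_add _ _ _
theorem cf_zero {F : Type} [Field F] [Algebra F2 F] : (cf 0 : F) = 0 := map_zero _
theorem cf_one {F : Type} [Field F] [Algebra F2 F] : (cf 1 : F) = 1 := map_one _
theorem cf_mul_eq_smul {F : Type} [Field F] [Algebra F2 F] (x : F2) (y : F) : cf x * y = x • y :=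
  (Algebra.smul_def x y).symm

end Pool.Agent.Q16.GR
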