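import Pool.Agent.Q16.GR.Chr
import Pool.Agent.H341R2.WeilSharp

/-!
# Project GR, job INJ: linear relations between the symbols of fixed primes (helper16)
-/

set_option autoImplicit false
set_option linter.all false

open scoped Classical
open Finset Polynomial

namespace Pool.Agent.Q16.GR

open Pool.Agent.Q269.GR
open Pool.Agent.Y164.PS (L sg sg_zero sg_one sg_add sg_sum)
open Pool.Agent.H341R2.Sharp (Mon)

theorem mem_Irn {k : Type} [Field k] [Fintype k] {d : ℕ} {P : k[X]} :
    P ∈ Irn k d ↔ P.Monic ∧ P.natDegree = d ∧ Irreducible P := by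
  unfold Irn
  rw [mem_filter, Pool.Agent.H341R2.Sharp.mem_Mon]
  tauto

section fieldE

variable {k : Type} [Field k] [Fintype k] {E : Type} [Field E] [Fintype E] [Algebra k E]
  {j : E →ₐ[k] Om k} {d : ℕ}

theorem inK_of_dvd {r : ℕ} (h : r ∣ d) {x : Om k} (hx : inK k r x) : inK k d x := by
  obtain ⟨t, rfl⟩ := h
  show x ^ (Fintype.card k ^ (r * t)) = x
  induction t with
  | zero => simp
  | succ t ih =>
    have hx' : x ^ (Fintype.card k ^ r) = x := hx
    rw [mul_add, mul_one, pow_add, pow_mul, ih, hx']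

theorem quad_j (hE : ringChar E ≠ 2) (hj : ∀ x : Om k, inK k d x ↔ x ∈ Set.range j) {x : E} (hx : x ≠ 0) :
    (quadraticChar E x : ℝ) = sg (sgd k d (j x)) := by
  have h1 : sgd k d (j x) = 0 ↔ IsSquare x := by
    rw [sgd_zero_iff]
    constructor
    · rintro ⟨y, hy, e⟩
      obtain ⟨z, rfl⟩ := (hj y).1 hy
      refine ⟨z, ?_⟩
      apply j.toRingHom.injective
      show j x = j (z * z)
      rw [e, map_mul, sq]
    · rintro ⟨z, rfl⟩
      exact ⟨j z, (hj _).2 ⟨z, rfl⟩, by rw [map_mul, sq]⟩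
  rw [← quadraticChar_one_iff_isSquare hx] at h1
  rcases quadraticChar_dichotomy hx with h | h
  · rw [h, h1.2 h, sg_zero]; norm_num
  · have h2 : sgd k d (j x) ≠ 0 := fun h3 => by
      rw [h1.1 h3] at h
      norm_num at h
    rcases F2c (sgd k d (j x)) with h3 | h3
    · exact absurd h3 h2
    · rw [h, h3, sg_one]; norm_num

theorem card_E_pos : 0 < Fintype.card E := Fintype.card_pos

theorem ringChar_E (hk : ringChar k ≠ 2) : ringChar E ≠ 2 := by
  have h1 : ringChar E = ringChar k := by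
    have hk : CharP k (ringChar k) := ringChar.charP k
    have hE : CharP E (ringChar k) := charP_of_injective_algebraMap (algebraMap k E).injective _
    exact ringChar.eq E (ringChar k)
  rw [h1]
  exact hk

/-- lifting a product of conjugate factors to `E` -/
theorem exists_lift (h2 : S_RTP) (hj : ∀ x : Om k, inK k d x ↔ x ∈ Set.range j) {P : k[X]}
    (hm : P.Monic) (hi : Irreducible P) {r : ℕ} (hr : r ∣ P.natDegree) (hrd : r ∣ d) {c : ℕ} (hc : c < r) :
    ∃ G : E[X], G.map (j : E →+* Om k) =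
      ∏ l ∈ (range P.natDegree).filter (fun l => l % r = c), (X - C (rt P ^ (Fintype.card k ^ l))) := by
  obtain ⟨H, hH⟩ : ∃ H : (Om k)[X], H = ∏ l ∈ (range P.natDegree).filter (fun l => l % r = c),
    (X - C (rt P ^ (Fintype.card k ^ l))) := ⟨_, rfl⟩
  rw [← hH]
  obtain ⟨φ, hφ⟩ := ex_frob (k := k) (Om k) r
  have h3 : H.map (φ : Om k →+* Om k) = H := by
    rw [hH, Polynomial.map_prod]
    have h4 : ∀ l, (X - C (rt P ^ (Fintype.card k ^ l)) : (Om k)[X]).map (φ : Om k →+* Om k) =
        X - C (rt P ^ (Fintype.card k ^ (l + r))) := by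
      intro l
      rw [Polynomial.map_sub, map_X, map_C]
      congr 2
      show φ (rt P ^ (Fintype.card k ^ l)) = _
      rw [hφ, pow_pow_q]
    rw [prod_congr rfl fun l _ => h4 l]
    have h5 := prod_shift (fun l => (X - C (rt P ^ (Fintype.card k ^ l)) : (Om k)[X])) P.natDegree r
      hi.natDegree_pos hr (fun n m hnm => by
        show (X - C (rt P ^ (Fintype.card k ^ n)) : (Om k)[X]) = X - C (rt P ^ (Fintype.card k ^ m))
        rw [per h2 hm hi n m hnm]) c r
    rw [Nat.add_mod_right, Nat.mod_eq_of_lt hc] at h5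
    exact h5
  have h6 : H ∈ Polynomial.lifts (j : E →+* Om k) := by
    rw [Polynomial.lifts_iff_coeff_lifts]
    intro n
    have h7 : inK k r (H.coeff n) := by
      show (H.coeff n) ^ (Fintype.card k ^ r) = H.coeff n
      rw [← hφ]
      conv_rhs => rw [← h3]
      rw [coeff_map]
      rfl
    exact (hj _).1 (inK_of_dvd hrd h7)
  obtain ⟨G, hG⟩ := (Polynomial.mem_lifts H).1 h6
  exact ⟨G, hG⟩

theorem eval_lift {G : E[X]} {s : Finset ℕ} {t : ℕ → Om k}
    (h : G.map (j : E →+* Om k) = ∏ l ∈ s, (X - C (t l))) (x : E) :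
    j (G.eval x) = ∏ l ∈ s, (j x - t l) := by
  have h1 : eval (j x) (G.map (j : E →+* Om k)) = j (G.eval x) := by
    rw [eval_map]
    exact Polynomial.eval₂_at_apply (j : E →+* Om k) x
  rw [← h1, h, eval_prod]
  refine prod_congr rfl fun l _ => ?_
  rw [eval_sub, eval_X, eval_C]

/-- the Weil bound for a polynomial with simple roots -/
theorem weil_simple (hE : ringChar E ≠ 2) {ι : Type} (s : Finset ι) (t : ι → Om k)
    (ht : Set.InjOn t s) (hs : s.Nonempty) (G : E[X]) (h : G.map (j : E →+* Om k) = ∏ l ∈ s, (X - C (t l))) :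
    |∑ x : E, (quadraticChar E (G.eval x) : ℝ)| ≤ s.card * Real.sqrt (Fintype.card E) := by
  have hdeg : G.natDegree = s.card := by
    rw [← natDegree_map (j : E →+* Om k), h, natDegree_finset_prod_X_sub_C_eq_card]
  have hpos : 0 < s.card := hs.card_pos
  have hW := Pool.Agent.H341R2.Sharp.weil_sharp hE G (by rw [hdeg]; exact hpos) (by
    intro c H he
    have hsf : Squarefree (∏ l ∈ s, (X - C (t l)) : (Om k)[X]) := by
      apply Polynomial.Separable.squarefree
      rw [Polynomial.separable_prod_X_sub_C_iff']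
      intro x hx y hy hxy
      exact ht hx hy hxy
    have h3 : (H.map (j : E →+* Om k)) * (H.map (j : E →+* Om k)) ∣ ∏ l ∈ s, (X - C (t l)) := by
      rw [← h, he, Polynomial.map_mul, Polynomial.map_pow, sq]
      exact Dvd.intro_left _ rfl
    have h4 := hsf _ h3
    have h5 : (H.map (j : E →+* Om k)).natDegree = 0 := natDegree_eq_zero_of_isUnit h4
    rw [natDegree_map] at h5
    have h6 : G.natDegree = 0 := by
      rw [he, Polynomial.eq_C_of_natDegree_eq_zero h5, ← C_pow, ← C_mul, natDegree_C]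
    omega)
  refine hW.trans ?_
  apply mul_le_mul_of_nonneg_right _ (Real.sqrt_nonneg _)
  rw [hdeg]
  linarith

end fieldE

theorem tr_add {F : Type} [Field F] [Algebra F2 F] (x y : F) : Algebra.trace F2 F (x + y) =
    Algebra.trace F2 F x + Algebra.trace F2 F y := map_add _ _ _

theorem t_INJ (h0 : S_FLD) (h1 : S_SGD) (h2 : S_RTP) : S_INJ := by
  intro k _ _ hk r F _ _ _ ξ hξ ν _ P hPm hPi hPinj hPr d hd hrd hPd v hv0
  haveI : Module.Finite F2 F := Module.Finite.of_finite
  obtain ⟨q, hq⟩ : ∃ q, q = Fintype.card k := ⟨_, rfl⟩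
  obtain ⟨E, _, _, _, j, hcard, hfr, hj⟩ := h0 k d hd
  have hE : ringChar E ≠ 2 := ringChar_E (k := k) hk
  have hr0 : 0 < r := r_pos hξ
  have hjinj : Function.Injective j := j.toRingHom.injective
  -- the polynomials
  have hG : ∀ κ, ∀ c : ℕ, ∃ G : E[X], c < r → G.map (j : E →+* Om k) =
      ∏ l ∈ (range (P κ).natDegree).filter (fun l => l % r = c), (X - C (rt (P κ) ^ (q ^ l))) := by
    intro κ c
    by_cases hc : c < r
    · obtain ⟨G, hG⟩ := exists_lift h2 hj (hPm κ) (hPi κ) (hPr κ) hrd hc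
      exact ⟨G, fun _ => by rw [hG, hq]⟩
    · exact ⟨0, fun h => absurd h hc⟩
  choose G hG using hG
  -- the functionals
  let u : ν × ℕ → F → F2 := fun i lam => Algebra.trace F2 F (lam * (v i.1 * ξ ^ i.2))
  have hu : ∀ i a b, u i (a + b) = u i a + u i b := by
    intro i a b
    show Algebra.trace F2 F ((a + b) * _) = _
    rw [add_mul, map_add]
  let J : Finset (ν × ℕ) := univ ×ˢ range r
  let g : ν × ℕ → E → E := fun i x => (G i.1 i.2).eval x
  let t : ν × ℕ → E → ℝ := fun i x => (quadraticChar E (g i x) : ℝ)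
  have ht : ∀ x i, t i x = 0 ∨ t i x = 1 ∨ t i x = -1 := by
    intro x i
    show (quadraticChar E (g i x) : ℝ) = 0 ∨ (quadraticChar E (g i x) : ℝ) = 1 ∨
      (quadraticChar E (g i x) : ℝ) = -1
    by_cases h : g i x = 0
    · left; rw [quadraticChar_eq_zero_iff.2 h]; norm_num
    · rcases quadraticChar_dichotomy h with h | h <;> rw [h] <;> norm_num
  let f : E → F → ℝ := fun x lam => ∏ i ∈ J, (if u i lam = 1 then t i x else 1)
  have hf0 : ∀ x, 0 ≤ ∑ lam, f x lam := fun x =>
    sum_nonneg_chr _ (prod_chr J u hu (fun i => t i x) (ht x)).1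
      (prod_chr J u hu (fun i => t i x) (ht x)).2
  -- the good elements
  let T : Finset E := univ.filter fun x => (∀ i ∈ J, g i x ≠ 0) ∧
    ∑ κ, v κ * ∑ c ∈ range r, cf (sgd k d (j (g (κ, c) x))) * ξ ^ c = 0
  have hfT : ∀ x ∈ T, ∑ lam, f x lam = Fintype.card F := by
    intro x hx
    rw [mem_filter] at hx
    have h3 : ∀ lam, f x lam = 1 := by
      intro lam
      have h4 : ∀ i ∈ J, (if u i lam = 1 then t i x else 1) =
          sg (u i lam * sgd k d (j (g i x))) := by
        intro i hi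
        have h5 : t i x = sg (sgd k d (j (g i x))) := quad_j hE hj (hx.2.1 i hi)
        rcases F2c (u i lam) with h | h
        · rw [h, if_neg (by decide), zero_mul, sg_zero]
        · rw [h, if_pos rfl, one_mul, h5]
      show ∏ i ∈ J, (if u i lam = 1 then t i x else 1) = 1
      rw [prod_congr rfl h4, ← sg_sum]
      have h6 : ∑ i ∈ J, u i lam * sgd k d (j (g i x)) =
          Algebra.trace F2 F (lam * ∑ κ, v κ * ∑ c ∈ range r, cf (sgd k d (j (g (κ, c) x))) * ξ ^ c) := by
        show ∑ i ∈ univ ×ˢ range r, u i lam * sgd k d (j (g i x)) = _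
        rw [sum_product, mul_sum, map_sum]
        refine sum_congr rfl fun κ _ => ?_
        rw [mul_sum, mul_sum, map_sum]
        refine sum_congr rfl fun c _ => ?_
        show Algebra.trace F2 F (lam * (v κ * ξ ^ c)) * _ = _
        have h7 : lam * (v κ * (cf (sgd k d (j (g (κ, c) x))) * ξ ^ c)) =
            (sgd k d (j (g (κ, c) x))) • (lam * (v κ * ξ ^ c)) := by
          rw [← cf_mul_eq_smul]
          ring
        rw [h7, map_smul, smul_eq_mul, mul_comm]
      rw [h6, hx.2.2, mul_zero, map_zero, sg_zero]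
    rw [sum_congr rfl fun lam _ => h3 lam, sum_const, card_univ, nsmul_eq_mul, mul_one]
  have hlow : (Fintype.card F : ℝ) * T.card ≤ ∑ lam, ∑ x, f x lam := by
    rw [sum_comm]
    calc (Fintype.card F : ℝ) * T.card = ∑ x ∈ T, ∑ lam, f x lam := by
          rw [sum_congr rfl hfT, sum_const, nsmul_eq_mul, mul_comm]
      _ ≤ ∑ x, ∑ lam, f x lam :=
          sum_le_sum_of_subset_of_nonneg (subset_univ _) fun x _ _ => hf0 x
  -- the upper bound
  obtain ⟨D, hD⟩ : ∃ D : ℝ, D = ∑ κ, ((P κ).natDegree : ℝ) := ⟨_, rfl⟩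
  have hD0 : 0 ≤ D := by rw [hD]; exact sum_nonneg fun _ _ => Nat.cast_nonneg _
  have hcE : (Fintype.card E : ℝ) = (Fintype.card k : ℝ) ^ d := by rw [hcard]; push_cast; rfl
  have hlam : ∀ lam : F, lam ≠ 0 → ∑ x, f x lam ≤ D * Real.sqrt ((Fintype.card k : ℝ) ^ d) := by
    intro lam hlam
    let I : Finset (Σ _ : ν, ℕ) := (univ : Finset ν).sigma
      (fun κ => (range (P κ).natDegree).filter (fun l => u (κ, l % r) lam = 1))
    let tt : (Σ _ : ν, ℕ) → Om k := fun p => rt (P p.1) ^ (q ^ p.2)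
    let Gl : E[X] := ∏ i ∈ J, (if u i lam = 1 then G i.1 i.2 else 1)
    have e1 : ∀ x, f x lam = (quadraticChar E (Gl.eval x) : ℝ) := by
      intro x
      show _ = (quadraticChar E (eval x (∏ i ∈ J, (if u i lam = 1 then G i.1 i.2 else 1))) : ℝ)
      rw [eval_prod, map_prod]
      push_cast
      show (∏ i ∈ J, (if u i lam = 1 then t i x else 1)) = _
      refine prod_congr rfl fun i _ => ?_
      split_ifs
      · rfl
      · rw [eval_one, map_one]; norm_num
    have e2 : Gl.map (j : E →+* Om k) = ∏ p ∈ I, (X - C (tt p)) := by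
      show (∏ i ∈ univ ×ˢ range r, (if u i lam = 1 then G i.1 i.2 else 1)).map (j : E →+* Om k) =
        ∏ p ∈ (univ : Finset ν).sigma
          (fun κ => (range (P κ).natDegree).filter (fun l => u (κ, l % r) lam = 1)), (X - C (tt p))
      rw [Polynomial.map_prod, prod_product, prod_sigma]
      refine prod_congr rfl fun κ _ => ?_
      have e3 : ∀ c ∈ range r, (if u (κ, c) lam = 1 then G κ c else 1).map (j : E →+* Om k) =
          ∏ l ∈ ((range (P κ).natDegree).filter (fun l => u (κ, l % r) lam = 1)).filter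
            (fun l => l % r = c), (X - C (rt (P κ) ^ (q ^ l))) := by
        intro c hc
        split_ifs with h
        · rw [hG κ c (mem_range.1 hc)]
          refine prod_congr ?_ fun _ _ => rfl
          ext l
          simp only [mem_filter, mem_range]
          constructor
          · rintro ⟨a, b⟩
            exact ⟨⟨a, by rw [b]; exact h⟩, b⟩
          · rintro ⟨⟨a, _⟩, b⟩
            exact ⟨a, b⟩
        · rw [Polynomial.map_one]
          symm
          apply prod_eq_one
          intro l hl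
          simp only [mem_filter, mem_range] at hl
          rw [hl.2] at hl
          exact absurd hl.1.2 h
      rw [prod_congr rfl e3]
      exact Finset.prod_fiberwise_of_maps_to (t := range r) (g := fun l => l % r)
        (fun l _ => mem_range.2 (Nat.mod_lt _ hr0)) (fun l => (X - C (rt (P κ) ^ (q ^ l)) : (Om k)[X]))
    have e4 : Set.InjOn tt I := by
      rintro ⟨κ, l⟩ hκ ⟨κ', l'⟩ hκ' he
      have hκ1 : l < (P κ).natDegree := by
        have := (mem_sigma.1 (mem_coe.1 hκ)).2
        exact mem_range.1 (mem_filter.1 this).1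
      have hκ1' : l' < (P κ').natDegree := by
        have := (mem_sigma.1 (mem_coe.1 hκ')).2
        exact mem_range.1 (mem_filter.1 this).1
      have he' : rt (P κ) ^ (Fintype.card k ^ l) = rt (P κ') ^ (Fintype.card k ^ l') := by
        rw [← hq]; exact he
      have hκκ : κ = κ' := by
        by_contra hne
        exact (h2 k (P κ) (hPm κ) (hPi κ)).2.2.2.2 (P κ') (hPm κ') (hPi κ')
          (fun h => hne (hPinj h).symm) l l' he'
      subst hκκ
      have h5 := ((h2 k (P κ) (hPm κ) (hPi κ)).2.2.2.1 l l').1 he'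
      have h6 : l = l' := by
        have h7 : l % (P κ).natDegree = l' % (P κ).natDegree := h5
        rwa [Nat.mod_eq_of_lt hκ1, Nat.mod_eq_of_lt hκ1'] at h7
      rw [h6]
    have e5 : I.Nonempty := by
      obtain ⟨κ, hκ⟩ := Function.ne_iff.1 hv0
      obtain ⟨c, hc, h5⟩ := exists_trace hξ (mul_ne_zero hlam hκ)
      have h6 : r ≤ (P κ).natDegree := Nat.le_of_dvd (hPi κ).natDegree_pos (hPr κ)
      refine ⟨⟨κ, c⟩, ?_⟩
      rw [mem_sigma]
      refine ⟨mem_univ _, ?_⟩
      rw [mem_filter, mem_range]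
      refine ⟨lt_of_lt_of_le hc h6, ?_⟩
      show Algebra.trace F2 F (lam * (v κ * ξ ^ (c % r))) = 1
      rw [Nat.mod_eq_of_lt hc, ← mul_assoc]
      exact h5
    have e6 := weil_simple hE I tt e4 e5 Gl e2
    have e7 : (I.card : ℝ) ≤ D := by
      have : I.card ≤ ∑ κ, (P κ).natDegree := by
        rw [card_sigma]
        refine sum_le_sum fun κ _ => ?_
        exact (card_filter_le _ _).trans (by rw [card_range])
      rw [hD]
      exact_mod_cast this
    rw [sum_congr rfl fun x _ => e1 x]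
    refine (le_abs_self _).trans (e6.trans ?_)
    rw [hcE]
    exact mul_le_mul_of_nonneg_right e7 (Real.sqrt_nonneg _)
  have hzero : ∑ x, f x 0 = (Fintype.card k : ℝ) ^ d := by
    have h3 : ∀ x, f x 0 = 1 := by
      intro x
      show (∏ i ∈ J, (if u i 0 = 1 then t i x else 1)) = 1
      apply prod_eq_one
      intro i _
      rw [if_neg]
      show ¬ Algebra.trace F2 F (0 * _) = 1
      rw [zero_mul, map_zero]
      decide
    rw [sum_congr rfl fun x _ => h3 x, sum_const, card_univ, nsmul_eq_mul, mul_one, hcE]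
  have hup : ∑ lam, ∑ x, f x lam ≤ (Fintype.card k : ℝ) ^ d +
      Fintype.card F * (D * Real.sqrt ((Fintype.card k : ℝ) ^ d)) := by
    rw [← add_sum_erase univ _ (mem_univ (0 : F)), hzero]
    have h3 : ∑ lam ∈ univ.erase (0 : F), ∑ x, f x lam ≤
        ∑ lam ∈ univ.erase (0 : F), D * Real.sqrt ((Fintype.card k : ℝ) ^ d) :=
      sum_le_sum fun lam hl => hlam lam (ne_of_mem_erase hl)
    rw [sum_const, nsmul_eq_mul] at h3
    have h4 : ((univ.erase (0 : F)).card : ℝ) ≤ Fintype.card F := by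
      exact_mod_cast (card_le_card (erase_subset _ _)).trans (by rw [card_univ])
    have h5 : 0 ≤ D * Real.sqrt ((Fintype.card k : ℝ) ^ d) := mul_nonneg hD0 (Real.sqrt_nonneg _)
    have h6 := mul_le_mul_of_nonneg_right h4 h5
    linarith
  have hF0 : (0 : ℝ) < Fintype.card F := by exact_mod_cast Fintype.card_pos
  have hTb : (T.card : ℝ) ≤ (Fintype.card k : ℝ) ^ d / Fintype.card F +
      D * Real.sqrt ((Fintype.card k : ℝ) ^ d) := by
    have h3 := hlow.trans hup
    rw [div_add' _ _ _ hF0.ne', le_div_iff₀ hF0]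
    linarith
  rw [← hD]
  refine le_trans ?_ hTb
  -- the counting
  obtain ⟨S, hS⟩ : ∃ S, S = (Irn k d).filter fun P' => ∑ κ, v κ * hv r ξ (P κ) P' = 0 := ⟨_, rfl⟩
  rw [← hS]
  have hSK : ∀ P' ∈ S, P'.Monic ∧ P'.natDegree = d ∧ Irreducible P' := fun P' hP' => by
    rw [hS, mem_filter] at hP'
    exact mem_Irn.1 hP'.1
  have hpre : ∀ p : k[X] × ℕ, ∃ x : E, p.1 ∈ S → j x = rt p.1 ^ (q ^ p.2) := by
    intro p
    by_cases hp : p.1 ∈ S
    · obtain ⟨m1, m2, m3⟩ := hSK _ hp
      have h3 : inK k d (rt p.1 ^ (q ^ p.2)) := by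
        have h4 : (rt p.1) ^ (Fintype.card k ^ p.1.natDegree) = rt p.1 := (h2 k p.1 m1 m3).2.1
        rw [m2] at h4
        show (rt p.1 ^ (q ^ p.2)) ^ (Fintype.card k ^ d) = _
        rw [← pow_mul, mul_comm, pow_mul, h4]
      obtain ⟨x, hx⟩ := (hj _).1 h3
      exact ⟨x, fun _ => hx⟩
    · exact ⟨0, fun h => absurd h hp⟩
  choose ψ hψ using hpre
  have hinj : Set.InjOn ψ (S ×ˢ range d : Finset (k[X] × ℕ)) := by
    rintro ⟨A, i⟩ hA ⟨B, i'⟩ hB he
    rw [mem_coe, mem_product, mem_range] at hA hB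
    have e1 := hψ (A, i) hA.1
    have e2 := hψ (B, i') hB.1
    rw [he, e2] at e1
    obtain ⟨m1, m2, m3⟩ := hSK _ hA.1
    obtain ⟨n1, n2, n3⟩ := hSK _ hB.1
    dsimp only at m1 m2 m3 n1 n2 n3 e1 hA hB
    rw [hq] at e1
    have hAB : A = B := by
      by_contra hne
      exact (h2 k B n1 n3).2.2.2.2 A m1 m3 hne i' i e1
    subst hAB
    have h5 := ((h2 k A m1 m3).2.2.2.1 i' i).1 e1
    rw [m2] at h5
    have h6 : i' % d = i % d := h5
    rw [Nat.mod_eq_of_lt hA.2, Nat.mod_eq_of_lt hB.2] at h6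
    rw [h6]
  have hmap : ∀ p ∈ (S ×ˢ range d : Finset (k[X] × ℕ)), ψ p ∈ T := by
    rintro ⟨A, i⟩ hA
    rw [mem_product, mem_range] at hA
    obtain ⟨m1, m2, m3⟩ := hSK _ hA.1
    dsimp only at m1 m2 m3 hA
    have e1 := hψ (A, i) hA.1
    dsimp only at e1
    have hyK : ∀ κ, ∀ c < r, inK k d (yy r (P κ) A c) := by
      intro κ c hc
      have := yy_inK (g := r) (P := P κ) (P' := A) h2 ⟨hPm κ, hPi κ, m1, m3, hr0, hPr κ, by rw [m2]; exact hrd⟩ c hc
      rwa [m2] at this
    -- the value of the polynomials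
    have hval : ∀ κ, ∀ c < r, j (g (κ, (c + i) % r) (ψ (A, i))) = (yy r (P κ) A c) ^ (Fintype.card k ^ i) := by
      intro κ c hc
      show j ((G κ ((c + i) % r)).eval (ψ (A, i))) = _
      rw [eval_lift (hG κ ((c + i) % r) (Nat.mod_lt _ hr0)) (ψ (A, i)), e1]
      unfold yy
      rw [prod_q]
      have h5 : ∀ l, (rt A - rt (P κ) ^ (Fintype.card k ^ l)) ^ (Fintype.card k ^ i) =
          rt A ^ (Fintype.card k ^ i) - rt (P κ) ^ (Fintype.card k ^ (l + i)) := by
        intro l
        rw [sub_q, pow_pow_q]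
      rw [Finset.prod_congr rfl fun l _ => h5 l]
      have h6 := prod_shift (fun l => rt A ^ (Fintype.card k ^ i) - rt (P κ) ^ (Fintype.card k ^ l))
        (P κ).natDegree r (hPi κ).natDegree_pos (hPr κ) (fun n m hnm => by
          show rt A ^ (Fintype.card k ^ i) - rt (P κ) ^ (Fintype.card k ^ n) =
            rt A ^ (Fintype.card k ^ i) - rt (P κ) ^ (Fintype.card k ^ m)
          rw [per h2 (hPm κ) (hPi κ) n m hnm]) c i
      rw [Nat.mod_eq_of_lt hc] at h6
      rw [h6, hq]
    have hne : ∀ κ, A ≠ P κ := by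
      intro κ he
      apply hPd κ
      rw [← he, m2]
    have hy0 : ∀ κ, ∀ c < r, yy r (P κ) A c ≠ 0 := by
      intro κ c hc
      exact yy_ne ⟨hPm κ, hPi κ, m1, m3, hr0, hPr κ, by rw [m2]; exact hrd⟩ hc
        (NV_of_ne h2 ⟨hPm κ, hPi κ, m1, m3, hr0, hPr κ, by rw [m2]; exact hrd⟩ (hne κ).symm c)
    have hsh : ∀ c < r, ∃ c' < r, (c' + i) % r = c := by
      intro c hc
      refine ⟨(c + (r - i % r)) % r, Nat.mod_lt _ hr0, ?_⟩
      have h5 : i % r < r := Nat.mod_lt _ hr0
      rw [Nat.mod_add_mod]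
      have h6 : c + (r - i % r) + i ≡ c [MOD r] := by
        have h7 : (r - i % r) + i ≡ 0 [MOD r] := by
          calc (r - i % r) + i ≡ (r - i % r) + i % r [MOD r] :=
                Nat.ModEq.add_left _ (Nat.mod_modEq i r).symm
            _ = r := by omega
            _ ≡ 0 [MOD r] := by simp [Nat.ModEq]
        rw [add_assoc]
        exact Nat.ModEq.add_left c h7
      have h8 : (c + (r - i % r) + i) % r = c % r := h6
      rw [h8, Nat.mod_eq_of_lt hc]
    have hsym : ∀ κ, ∀ c < r, sgd k d (j (g (κ, (c + i) % r) (ψ (A, i)))) = sy r (P κ) A c := by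
      intro κ c hc
      rw [hval κ c hc, (h1 k hk d hd).2.1 _ i (hyK κ c hc), sy_eq, m2]
    show ψ (A, i) ∈ univ.filter _
    rw [mem_filter]
    refine ⟨mem_univ _, ?_, ?_⟩
    · rintro ⟨κ, c⟩ hi h5
      have hc : c < r := mem_range.1 (mem_product.1 hi).2
      obtain ⟨c', hc', rfl⟩ := hsh c hc
      have h6 := hval κ c' hc'
      rw [h5, map_zero] at h6
      exact pow_ne_zero _ (hy0 κ c' hc') h6.symm
    · have hAS := hA.1
      rw [hS, mem_filter] at hAS
      have h5 : ∀ κ, ∑ c ∈ range r, cf (sgd k d (j (g (κ, c) (ψ (A, i))))) * ξ ^ c =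
          ξ ^ i * hv r ξ (P κ) A := by
        intro κ
        unfold hv
        rw [mul_sum]
        symm
        refine Finset.sum_bij (fun c _ => (c + i) % r) ?_ ?_ ?_ ?_
        · intro c _
          exact mem_range.2 (Nat.mod_lt _ hr0)
        · intro c hc c' hc' he
          have h6 : c + i ≡ c' + i [MOD r] := he
          have h7 : c ≡ c' [MOD r] := Nat.ModEq.add_right_cancel' i h6
          have h8 : c % r = c' % r := h7
          rwa [Nat.mod_eq_of_lt (mem_range.1 hc), Nat.mod_eq_of_lt (mem_range.1 hc')] at h8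
        · intro c hc
          obtain ⟨c', hc', he⟩ := hsh c (mem_range.1 hc)
          exact ⟨c', mem_range.2 hc', he⟩
        · intro c hc
          rw [hsym κ c (mem_range.1 hc), ← pow_eq_pow_mod _ (pow_r hξ), pow_add]
          ring
      have h6 : ∑ κ, v κ * ∑ c ∈ range r, cf (sgd k d (j (g (κ, c) (ψ (A, i))))) * ξ ^ c =
          ξ ^ i * ∑ κ, v κ * hv r ξ (P κ) A := by
        rw [mul_sum]
        refine sum_congr rfl fun κ _ => ?_
        rw [h5 κ]
        ring
      rw [h6, hAS.2, mul_zero]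
  have hfin := Finset.card_le_card_of_injOn ψ hmap hinj
  rw [card_product, card_range] at hfin
  have : (S.card : ℝ) * d ≤ T.card := by exact_mod_cast hfin
  linarith

end Pool.Agent.Q16.GR

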