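import Pool.Agent.Q16.GR.Ph
import Pool.Agent.Q16.GR.INJ

/-!
# Project GR, jobs FCT and FCD: prime factors over the extension (helper16)
-/

set_option autoImplicit false
set_option linter.all false

open scoped Classical
open Finset Polynomial

namespace Pool.Agent.Q16.GR

open Pool.Agent.Q269.GR
open Pool.Agent.Y164.PS (L sg L_eq_zero_iff L_of_not_coprime coprime_of_not_dvd)
open UniqueFactorizationMonoid

section range

variable {k k' : Type} [Field k] [Fintype k] [Field k'] [Fintype k'] [Algebra k k'] (j : k' →ₐ[k] Om k)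

theorem finrank_pos' : 0 < Module.finrank k k' := by
  haveI : Module.Finite k k' := Module.Finite.of_finite
  exact Module.finrank_pos

/-- the image of `j` -/
theorem range_j (x : Om k) : inK k (Module.finrank k k') x ↔ x ∈ Set.range j := by
  obtain ⟨e, he⟩ : ∃ e, e = Module.finrank k k' := ⟨_, rfl⟩
  rw [← he]
  have he0 : 0 < e := by rw [he]; exact finrank_pos'
  have hcard : Fintype.card k' = Fintype.card k ^ e := by
    rw [he]; exact Module.card_eq_pow_finrank
  have hq1 : 1 < Fintype.card k := Fintype.one_lt_card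
  have hne : (X ^ (Fintype.card k ^ e) - X : (Om k)[X]) ≠ 0 :=
    FiniteField.X_pow_card_sub_X_ne_zero _ (Nat.one_lt_pow he0.ne' hq1)
  have hdeg : (X ^ (Fintype.card k ^ e) - X : (Om k)[X]).natDegree = Fintype.card k ^ e :=
    FiniteField.X_pow_card_sub_X_natDegree_eq _ (Nat.one_lt_pow he0.ne' hq1)
  have hroot : ∀ x : Om k, x ∈ (X ^ (Fintype.card k ^ e) - X : (Om k)[X]).roots.toFinset ↔
      inK k e x := by
    intro x
    rw [Multiset.mem_toFinset, mem_roots hne, IsRoot, eval_sub, eval_pow, eval_X, sub_eq_zero]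
    rfl
  have h1 : (univ.image j) ⊆ (X ^ (Fintype.card k ^ e) - X : (Om k)[X]).roots.toFinset := by
    intro z hz
    rw [Finset.mem_image] at hz
    obtain ⟨x, _, rfl⟩ := hz
    rw [hroot]
    show (j x) ^ (Fintype.card k ^ e) = j x
    rw [← map_pow, ← hcard, FiniteField.pow_card]
  have h2 : (X ^ (Fintype.card k ^ e) - X : (Om k)[X]).roots.toFinset.card ≤ (univ.image j).card := by
    rw [Finset.card_image_of_injective _ (show Function.Injective j from j.toRingHom.injective),
      Finset.card_univ, hcard]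
    exact ((Multiset.toFinset_card_le _).trans (card_roots' _)).trans hdeg.le
  have h3 := Finset.eq_of_subset_of_card_le h1 h2
  rw [← hroot, ← h3, Finset.mem_image]
  constructor
  · rintro ⟨x, _, rfl⟩
    exact ⟨x, rfl⟩
  · rintro ⟨x, rfl⟩
    exact ⟨x, mem_univ _, rfl⟩

end range

/-- the product over a class of residues -/
noncomputable def HH {k : Type} [Field k] [Fintype k] (g : ℕ) (P : k[X]) (c : ℕ) : (Om k)[X] :=
  ∏ l ∈ (range P.natDegree).filter (fun l => l % g = c % g), (X - C (rt P ^ (Fintype.card k ^ l)))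

section fct

variable {k k' : Type} [Field k] [Fintype k] [Field k'] [Fintype k'] [Algebra k k'] {j : k' →ₐ[k] Om k}
  {P : k[X]}

/-- the Frobenius on the products -/
theorem HH_frob (h2 : S_RTP) (hm : P.Monic) (hi : Irreducible P) {g : ℕ} (hg : g ∣ P.natDegree) (c s : ℕ)
    {φ : Om k →+* Om k} (hφ : ∀ x, φ x = x ^ (Fintype.card k ^ s)) : (HH g P c).map φ = HH g P (c + s) := by
  unfold HH
  rw [Polynomial.map_prod]
  have h4 : ∀ l, (X - C (rt P ^ (Fintype.card k ^ l)) : (Om k)[X]).map φ = X - C (rt P ^ (Fintype.card k ^ (l + s))) := by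
    intro l
    rw [Polynomial.map_sub, map_X, map_C, hφ, pow_pow_q]
  rw [prod_congr rfl fun l _ => h4 l]
  exact prod_shift (fun l => (X - C (rt P ^ (Fintype.card k ^ l)) : (Om k)[X])) P.natDegree g
    hi.natDegree_pos hg (fun n m hnm => by
      show (X - C (rt P ^ (Fintype.card k ^ n)) : (Om k)[X]) = X - C (rt P ^ (Fintype.card k ^ m))
      rw [per h2 hm hi n m hnm]) c s

theorem HH_root (g : ℕ) (P : k[X]) (c : ℕ) (x : Om k) :
    (HH g P c).eval x = 0 ↔ ∃ l < P.natDegree, l % g = c % g ∧ x = rt P ^ (Fintype.card k ^ l) := by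
  unfold HH
  rw [eval_prod, prod_eq_zero_iff]
  constructor
  · rintro ⟨l, hl, h⟩
    rw [mem_filter, mem_range] at hl
    rw [eval_sub, eval_X, eval_C, sub_eq_zero] at h
    exact ⟨l, hl.1, hl.2, h⟩
  · rintro ⟨l, h1, h2, h3⟩
    refine ⟨l, mem_filter.2 ⟨mem_range.2 h1, h2⟩, ?_⟩
    rw [eval_sub, eval_X, eval_C, h3, sub_self]

theorem HH_monic (g : ℕ) (P : k[X]) (c : ℕ) : (HH g P c).Monic :=
  monic_prod_of_monic _ _ fun l _ => monic_X_sub_C _

/-- the existence of the prime factor with the root -/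
theorem fp_spec (h2 : S_RTP) (hm : P.Monic) (hi : Irreducible P) :
    (fp j P).Monic ∧ Irreducible (fp j P) ∧ (fp j P).eval₂ (j : k' →+* Om k) (rt P) = 0 := by
  have hex : ∃ Q : k'[X], Q.Monic ∧ Irreducible Q ∧ Q.eval₂ (j : k' →+* Om k) (rt P) = 0 := by
    letI : Algebra k' (Om k) := (j : k' →+* Om k).toAlgebra
    have hroot := (h2 k P hm hi).1
    have hint : IsIntegral k' (rt P) := by
      refine ⟨P.map (algebraMap k k'), hm.map _, ?_⟩
      show (P.map (algebraMap k k')).eval₂ (j : k' →+* Om k) (rt P) = 0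
      rw [eval₂_map]
      have e1 : (j : k' →+* Om k).comp (algebraMap k k') = algebraMap k (Om k) := by
        ext x
        exact j.commutes x
      rw [e1]
      exact hroot
    exact ⟨minpoly k' (rt P), minpoly.monic hint, minpoly.irreducible hint, minpoly.aeval k' (rt P)⟩
  unfold fp
  rw [dif_pos hex]
  exact hex.choose_spec

theorem dvd_of_root {Q G : k'[X]} (hQ : Irreducible Q) {x : Om k} (h : Q.eval₂ (j : k' →+* Om k) x = 0)
    (hG : G.eval₂ (j : k' →+* Om k) x = 0) : Q ∣ G := by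
  by_contra hd
  have hc := (hQ.coprime_iff_not_dvd).2 hd
  obtain ⟨a, b, hab⟩ := hc
  have := congrArg (fun p => p.eval₂ (j : k' →+* Om k) x) hab
  simp only [eval₂_add, eval₂_mul, h, hG, mul_zero, add_zero, eval₂_one] at this
  exact zero_ne_one this

theorem eval₂_eq_eval_map (f : k'[X]) (x : Om k) :
    f.eval₂ (j : k' →+* Om k) x = (f.map (j : k' →+* Om k)).eval x := (eval_map _ _).symm

theorem exists_step {d e g : ℕ} (hd : 0 < d) (hg : g = Nat.gcd e d) (l : ℕ) (hl : l % g = 0) :
    ∃ t : ℕ, e * t ≡ l [MOD d] := by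
  obtain ⟨m, rfl⟩ : g ∣ l := Nat.dvd_of_mod_eq_zero hl
  have h1 := Nat.gcd_eq_gcd_ab e d
  have hd' : (d : ℤ) ≠ 0 := by exact_mod_cast hd.ne'
  obtain ⟨t, ht⟩ : ∃ t : ℕ, (t : ℤ) = (Nat.gcdA e d * m) % d :=
    ⟨((Nat.gcdA e d * m) % d).toNat, Int.toNat_of_nonneg (Int.emod_nonneg _ hd')⟩
  refine ⟨t, ?_⟩
  rw [← Int.natCast_modEq_iff]
  push_cast
  rw [ht]
  calc (e : ℤ) * ((Nat.gcdA e d * m) % d) ≡ e * (Nat.gcdA e d * m) [ZMOD d] :=
        Int.ModEq.mul_left _ (Int.mod_modEq _ _)
    _ = (g : ℤ) * m - d * (Nat.gcdB e d * m) := by rw [hg, h1]; ring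
    _ ≡ (g : ℤ) * m [ZMOD d] := by
        rw [Int.modEq_iff_dvd]
        exact ⟨Nat.gcdB e d * m, by ring⟩

/-- the image of the prime factor over the algebraic closure -/
theorem fp_map (h2 : S_RTP) (hm : P.Monic) (hi : Irreducible P) :
    (fp j P).map (j : k' →+* Om k) = HH (Nat.gcd (Module.finrank k k') P.natDegree) P 0 := by
  obtain ⟨g, hg⟩ : ∃ g, g = Nat.gcd (Module.finrank k k') P.natDegree := ⟨_, rfl⟩
  rw [← hg]
  have hd := hi.natDegree_pos
  have hg0 : 0 < g := by rw [hg]; exact Nat.gcd_pos_of_pos_right _ hd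
  have hgd : g ∣ P.natDegree := by rw [hg]; exact Nat.gcd_dvd_right _ _
  have hge : g ∣ Module.finrank k k' := by rw [hg]; exact Nat.gcd_dvd_left _ _
  obtain ⟨s1, s2, s3⟩ := fp_spec (j := j) h2 hm hi
  obtain ⟨G, hG⟩ := exists_lift (j := j) h2 (range_j j) hm hi hgd hge hg0
  have hG' : G.map (j : k' →+* Om k) = HH g P 0 := by
    rw [hG]
    unfold HH
    rw [Nat.zero_mod]
  -- fp divides G
  have hroot0 : (HH g P 0).eval (rt P) = 0 := by
    rw [HH_root]
    exact ⟨0, hd, by rw [Nat.zero_mod], by rw [pow_zero, pow_one]⟩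
  have hdvd : fp j P ∣ G := dvd_of_root s2 s3 (by rw [eval₂_eq_eval_map, hG']; exact hroot0)
  -- all the roots
  obtain ⟨φ, hφ⟩ := ex_frob (k := k) (Om k) (Module.finrank k k')
  have hinv : ((fp j P).map (j : k' →+* Om k)).map (φ : Om k →+* Om k) = (fp j P).map (j : k' →+* Om k) := by
    ext n
    rw [coeff_map, coeff_map]
    show φ (j _) = j _
    rw [hφ]
    exact (range_j j _).2 ⟨_, rfl⟩
  have hroots : ∀ t : ℕ, ((fp j P).map (j : k' →+* Om k)).eval (rt P ^ (Fintype.card k ^ (Module.finrank k k' * t))) = 0 := by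
    intro t
    induction t with
    | zero =>
      rw [mul_zero, pow_zero, pow_one, ← eval₂_eq_eval_map]
      exact s3
    | succ t ih =>
      have e1 := congrArg φ ih
      rw [map_zero] at e1
      have e2 : eval (φ (rt P ^ (Fintype.card k ^ (Module.finrank k k' * t))))
          (((fp j P).map (j : k' →+* Om k)).map (φ : Om k →+* Om k)) =
          φ (eval (rt P ^ (Fintype.card k ^ (Module.finrank k k' * t))) ((fp j P).map (j : k' →+* Om k))) := by
        rw [eval_map]
        exact eval₂_at_apply (φ : Om k →+* Om k) _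
      rw [hinv, e1, hφ, pow_pow_q] at e2
      rw [mul_add, mul_one]
      exact e2
  have hdvd2 : HH g P 0 ∣ (fp j P).map (j : k' →+* Om k) := by
    unfold HH
    refine Finset.prod_dvd_of_coprime ?_ ?_
    · intro l hl l' hl' hne
      rw [mem_coe, mem_filter, mem_range] at hl hl'
      refine isCoprime_X_sub_C_of_isUnit_sub ?_
      rw [isUnit_iff_ne_zero]
      refine sub_ne_zero.2 fun he => hne ?_
      have h5 := ((h2 k P hm hi).2.2.2.1 l l').1 he
      have h7 : l % P.natDegree = l' % P.natDegree := h5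
      rwa [Nat.mod_eq_of_lt hl.1, Nat.mod_eq_of_lt hl'.1] at h7
    · intro l hl
      rw [mem_filter, mem_range, Nat.zero_mod] at hl
      rw [dvd_iff_isRoot, IsRoot]
      obtain ⟨t, ht⟩ := exists_step hd hg l hl.2
      have e1 : rt P ^ (Fintype.card k ^ l) = rt P ^ (Fintype.card k ^ (Module.finrank k k' * t)) :=
        ((h2 k P hm hi).2.2.2.1 _ _).2 ht.symm
      rw [e1]
      exact hroots t
  have hdvd3 : (fp j P).map (j : k' →+* Om k) ∣ HH g P 0 := by
    rw [← hG']
    exact Polynomial.map_dvd _ hdvd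
  exact eq_of_monic_of_associated (s1.map _) (HH_monic _ _ _) (associated_of_dvd_dvd hdvd3 hdvd2)

theorem ph_map (f : k'[X]) {φ : Om k →+* Om k} (hφ : ∀ x, φ x = x ^ (Fintype.card k ^ 1)) :
    (ph k f).map (j : k' →+* Om k) = (f.map (j : k' →+* Om k)).map φ := by
  ext n
  rw [coeff_map, coeff_map, coeff_map, ph_coeff, hφ, fr_apply, pow_one]
  exact map_pow _ _ _

theorem ph_iter_map (h2 : S_RTP) (hm : P.Monic) (hi : Irreducible P) (c : ℕ) :
    ((ph k)^[c] (fp j P)).map (j : k' →+* Om k) = HH (Nat.gcd (Module.finrank k k') P.natDegree) P c := by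
  obtain ⟨φ, hφ⟩ := ex_frob (k := k) (Om k) 1
  induction c with
  | zero => exact fp_map h2 hm hi
  | succ c ih =>
    rw [Function.iterate_succ_apply', ph_map (φ := (φ : Om k →+* Om k)) _ hφ, ih]
    exact HH_frob h2 hm hi (Nat.gcd_dvd_right _ _) c 1 (φ := (φ : Om k →+* Om k)) hφ

theorem ph_iter_monic {f : k'[X]} (h : f.Monic) (c : ℕ) : ((ph k)^[c] f).Monic := by
  induction c with
  | zero => exact h
  | succ c ih => rw [Function.iterate_succ_apply']; exact ph_monic ih

theorem ph_iter_irr {f : k'[X]} (h : Irreducible f) (c : ℕ) : Irreducible ((ph k)^[c] f) := by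
  induction c with
  | zero => exact h
  | succ c ih => rw [Function.iterate_succ_apply']; exact ph_irr.2 ih

theorem HH_eq_iff (h2 : S_RTP) (hm : P.Monic) (hi : Irreducible P) {g : ℕ} (hg0 : 0 < g)
    (hgd : g ∣ P.natDegree) (c c' : ℕ) : HH g P c = HH g P c' ↔ c ≡ c' [MOD g] := by
  constructor
  · intro h
    have hlt : c % g < P.natDegree := (Nat.mod_lt _ hg0).trans_le (Nat.le_of_dvd hi.natDegree_pos hgd)
    have h3 : (HH g P c).eval (rt P ^ (Fintype.card k ^ (c % g))) = 0 := by
      rw [HH_root]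
      exact ⟨c % g, hlt, Nat.mod_mod _ _, rfl⟩
    rw [h, HH_root] at h3
    obtain ⟨l, h4, h5, h6⟩ := h3
    have h7 : c % g ≡ l [MOD g] := Nat.ModEq.of_dvd hgd (((h2 k P hm hi).2.2.2.1 _ _).1 h6)
    have h8 : l ≡ c' [MOD g] := h5
    exact ((Nat.mod_modEq c g).symm.trans h7).trans h8
  · intro h
    have h3 : c % g = c' % g := h
    unfold HH
    rw [h3]

theorem map_j_inj : Function.Injective (fun f : k'[X] => f.map (j : k' →+* Om k)) :=
  Polynomial.map_injective _ (j : k' →+* Om k).injective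

theorem HH_prod {k : Type} [Field k] [Fintype k] (h2 : S_RTP) {P : k[X]} (hm : P.Monic) (hi : Irreducible P)
    {g : ℕ} (hg0 : 0 < g) :
    ∏ c ∈ range g, HH g P c = P.map (algebraMap k (Om k)) := by
  rw [(h2 k P hm hi).2.2.1]
  have e1 : ∀ c ∈ range g, HH g P c = ∏ l ∈ (range P.natDegree).filter (fun l => l % g = c),
      (X - C (rt P ^ (Fintype.card k ^ l))) := by
    intro c hc
    unfold HH
    rw [Nat.mod_eq_of_lt (mem_range.1 hc)]
  rw [prod_congr rfl e1]
  exact Finset.prod_fiberwise_of_maps_to (t := range g) (g := fun l => l % g)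
    (fun l _ => mem_range.2 (Nat.mod_lt _ hg0)) (fun l => (X - C (rt P ^ (Fintype.card k ^ l)) : (Om k)[X]))

theorem map_map_j (P : k[X]) : (P.map (algebraMap k k')).map (j : k' →+* Om k) = P.map (algebraMap k (Om k)) := by
  rw [Polynomial.map_map]
  congr 1
  ext x
  exact j.commutes x

end fct

theorem t_FCT (h1 : S_RTP) (h2 : S_FLD) : S_FCT := by
  intro k k' _ _ _ _ _ j P hm hi
  obtain ⟨s1, s2, s3⟩ := fp_spec (j := j) h1 hm hi
  have hd := hi.natDegree_pos
  have hg0 : 0 < Nat.gcd (Module.finrank k k') P.natDegree := Nat.gcd_pos_of_pos_right _ hd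
  refine ⟨s1, s2, s3, fun c => ph_iter_map h1 hm hi c, fun c => ⟨ph_iter_monic s1 c, ph_iter_irr s2 c⟩, ?_, ?_⟩
  · intro c c'
    rw [← HH_eq_iff h1 hm hi hg0 (Nat.gcd_dvd_right _ _), ← ph_iter_map (j := j) h1 hm hi,
      ← ph_iter_map (j := j) h1 hm hi]
    exact (map_j_inj (j := j)).eq_iff.symm
  · apply map_j_inj (j := j)
    show (P.map (algebraMap k k')).map (j : k' →+* Om k) =
      (∏ c ∈ range (Nat.gcd (Module.finrank k k') P.natDegree), (ph k)^[c] (fp j P)).map (j : k' →+* Om k)
    rw [Polynomial.map_prod, map_map_j, prod_congr rfl fun c _ => ph_iter_map h1 hm hi c,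
      HH_prod h1 hm hi hg0]

theorem t_FCD (h : S_FCT) (h2 : S_RTP) : S_FCD := by
  intro k k' _ _ _ _ _ j
  have hdis : ∀ P P' : k[X], P.Monic → Irreducible P → P'.Monic → Irreducible P' → P ≠ P' → ∀ c c' : ℕ,
      (ph k)^[c] (fp j P) ≠ (ph k)^[c'] (fp j P') := by
    intro P P' hm hi hm' hi' hne c c' he
    obtain ⟨g, hg⟩ : ∃ g, g = Nat.gcd (Module.finrank k k') P.natDegree := ⟨_, rfl⟩
    have hg0 : 0 < g := by rw [hg]; exact Nat.gcd_pos_of_pos_right _ hi.natDegree_pos
    have hgd : g ∣ P.natDegree := by rw [hg]; exact Nat.gcd_dvd_right _ _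
    have hlt : c % g < P.natDegree := (Nat.mod_lt _ hg0).trans_le (Nat.le_of_dvd hi.natDegree_pos hgd)
    have h3 : (HH g P c).eval (rt P ^ (Fintype.card k ^ (c % g))) = 0 := by
      rw [HH_root]
      exact ⟨c % g, hlt, Nat.mod_mod _ _, rfl⟩
    rw [hg, ← ph_iter_map (j := j) h2 hm hi, he, ph_iter_map (j := j) h2 hm' hi', HH_root] at h3
    obtain ⟨l, h4, h5, h6⟩ := h3
    exact (h2 k P hm hi).2.2.2.2 P' hm' hi' hne.symm _ _ h6
  refine ⟨?_, hdis, ?_⟩
  · intro D hD
    have hD' : D.map (algebraMap k k') ≠ 0 := by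
      rwa [Ne, Polynomial.map_eq_zero]
    ext T
    unfold pr
    rw [Multiset.mem_toFinset, mem_biUnion]
    constructor
    · intro hT
      have hTi := irreducible_of_normalized_factor T hT
      have hTm : T.Monic := by
        have h4 := normalize_normalized_factor T hT
        rw [← h4]
        exact Polynomial.monic_normalize hTi.ne_zero
      have hTd := dvd_of_mem_normalizedFactors hT
      have h5 := (prod_normalizedFactors hD).map (Polynomial.mapRingHom (algebraMap k k'))
      rw [map_multiset_prod] at h5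
      have h6 : T ∣ (Multiset.map (Polynomial.mapRingHom (algebraMap k k'))
          (UniqueFactorizationMonoid.normalizedFactors D)).prod := h5.symm.dvd_iff_dvd_right.1 hTd
      obtain ⟨Q, hQ, hTQ⟩ := hTi.prime.exists_mem_multiset_dvd h6
      obtain ⟨P, hP, rfl⟩ := Multiset.mem_map.1 hQ
      have hPi := irreducible_of_normalized_factor P hP
      have hPm : P.Monic := by
        have h4 := normalize_normalized_factor P hP
        rw [← h4]
        exact Polynomial.monic_normalize hPi.ne_zero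
      have hF := h k k' j P hPm hPi
      have hTQ' : T ∣ P.map (algebraMap k k') := hTQ
      rw [hF.2.2.2.2.2.2] at hTQ'
      obtain ⟨c, hc, hTc⟩ := (hTi.prime.dvd_finsetProd_iff _).1 hTQ'
      refine ⟨P, Multiset.mem_toFinset.2 hP, mem_image.2 ⟨c, hc, ?_⟩⟩
      have h7 := hF.2.2.2.2.1 c
      exact (eq_of_monic_of_associated hTm h7.1 (hTi.associated_of_dvd h7.2 hTc)).symm
    · rintro ⟨P, hP, hT⟩
      rw [Multiset.mem_toFinset] at hP
      obtain ⟨c, hc, rfl⟩ := mem_image.1 hT
      have hPi := irreducible_of_normalized_factor P hP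
      have hPm : P.Monic := by
        have h4 := normalize_normalized_factor P hP
        rw [← h4]
        exact Polynomial.monic_normalize hPi.ne_zero
      have hF := h k k' j P hPm hPi
      have h7 := hF.2.2.2.2.1 c
      have h8 : (ph k)^[c] (fp j P) ∣ D.map (algebraMap k k') := by
        refine dvd_trans ?_ (Polynomial.map_dvd _ (dvd_of_mem_normalizedFactors hP))
        rw [hF.2.2.2.2.2.2]
        exact dvd_prod_of_mem _ hc
      obtain ⟨R, hR, hRa⟩ := exists_mem_normalizedFactors_of_dvd hD' h7.2 h8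
      have hRm : R.Monic := by
        have h4 := normalize_normalized_factor R hR
        rw [← h4]
        exact Polynomial.monic_normalize (irreducible_of_normalized_factor R hR).ne_zero
      rw [eq_of_monic_of_associated h7.1 hRm hRa]
      exact hR
  · intro Q hm hi hc
    have hF := h k k' j Q hm hi
    have h3 := hF.2.2.2.2.2.2
    have h4 : Nat.gcd (Module.finrank k k') Q.natDegree = 1 := hc
    rw [h4, prod_range_one] at h3
    have h5 : Q.map (algebraMap k k') = fp j Q := h3
    exact ⟨by rw [h5]; exact hF.2.1, h5.symm⟩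

end Pool.Agent.Q16.GR

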