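import Pool.Agent.Q16.GR.FCT

/-!
# Project GR, jobs SYL and SYR: symbols over the extension (helper16)
-/

set_option autoImplicit false
set_option linter.all false

open scoped Classical
open Finset Polynomial

namespace Pool.Agent.Q16.GR

open Pool.Agent.Q269.GR
open Pool.Agent.Y164.PS (L sg L_eq_zero_iff L_of_not_coprime coprime_of_not_dvd)
open UniqueFactorizationMonoid

section syl

variable {k k' : Type} [Field k] [Fintype k] [Field k'] [Fintype k'] [Algebra k k'] {j : k' →ₐ[k] Om k}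
  {P : k[X]}

theorem card_mult (d g : ℕ) (hg0 : 0 < g) (hg : g ∣ d) :
    ((range d).filter (fun m => m % g = 0)).card = d / g := by
  have h := prod_mult (M := Multiplicative ℕ) (fun _ => Multiplicative.ofAdd 1) d g hg0 hg
  rw [prod_const, prod_const, card_range, ← ofAdd_nsmul, ← ofAdd_nsmul] at h
  have h2 := Multiplicative.ofAdd.injective h
  simpa using h2

theorem fp_deg (h2 : S_RTP) (hm : P.Monic) (hi : Irreducible P) :
    (fp j P).natDegree = P.natDegree / Nat.gcd (Module.finrank k k') P.natDegree := by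
  rw [← natDegree_map (j : k' →+* Om k), fp_map h2 hm hi]
  unfold HH
  rw [natDegree_finset_prod_X_sub_C_eq_card, Nat.zero_mod]
  exact card_mult _ _ (Nat.gcd_pos_of_pos_right _ hi.natDegree_pos) (Nat.gcd_dvd_right _ _)

/-- the field generated by a root -/
theorem inK_lcm (h2 : S_RTP) (hm : P.Monic) (hi : Irreducible P) (y : Om k) :
    inK k (Nat.lcm (Module.finrank k k') P.natDegree) y ↔
      ∃ z : k'[X], y = z.eval₂ (j : k' →+* Om k) (rt P) := by
  obtain ⟨m, hmm⟩ : ∃ m, m = Nat.lcm (Module.finrank k k') P.natDegree := ⟨_, rfl⟩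
  rw [← hmm]
  obtain ⟨s1, s2, s3⟩ := fp_spec (j := j) h2 hm hi
  have hq1 : 1 < Fintype.card k := Fintype.one_lt_card
  have hm0 : 0 < m := by
    rw [hmm]
    exact Nat.lcm_pos finrank_pos' hi.natDegree_pos
  haveI : Fact (Irreducible (fp j P)) := ⟨s2⟩
  haveI : Module.Finite k' (AdjoinRoot (fp j P)) := s1.finite_adjoinRoot
  haveI : Finite (AdjoinRoot (fp j P)) := Module.finite_of_finite k'
  letI : Fintype (AdjoinRoot (fp j P)) := Fintype.ofFinite _
  have hfr : Module.finrank k' (AdjoinRoot (fp j P)) = (fp j P).natDegree := by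
    rw [(AdjoinRoot.powerBasis s2.ne_zero).finrank]
    rfl
  have hcard : Fintype.card (AdjoinRoot (fp j P)) = Fintype.card k ^ m := by
    rw [Module.card_eq_pow_finrank (K := k'), hfr, Module.card_eq_pow_finrank (K := k) (V := k'), fp_deg h2 hm hi,
      ← pow_mul]
    congr 1
    rw [hmm, Nat.lcm, Nat.mul_div_assoc _ (Nat.gcd_dvd_right _ _)]
  let φ : AdjoinRoot (fp j P) →+* Om k := AdjoinRoot.lift (j : k' →+* Om k) (rt P) s3
  have hφ : ∀ z : k'[X], φ (AdjoinRoot.mk (fp j P) z) = z.eval₂ (j : k' →+* Om k) (rt P) := by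
    intro z
    exact AdjoinRoot.lift_mk s3 z
  have hφi : Function.Injective φ := φ.injective
  have hne : (X ^ (Fintype.card k ^ m) - X : (Om k)[X]) ≠ 0 :=
    FiniteField.X_pow_card_sub_X_ne_zero _ (Nat.one_lt_pow hm0.ne' hq1)
  have hdeg : (X ^ (Fintype.card k ^ m) - X : (Om k)[X]).natDegree = Fintype.card k ^ m :=
    FiniteField.X_pow_card_sub_X_natDegree_eq _ (Nat.one_lt_pow hm0.ne' hq1)
  have hroot : ∀ x : Om k, x ∈ (X ^ (Fintype.card k ^ m) - X : (Om k)[X]).roots.toFinset ↔ inK k m x := by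
    intro x
    rw [Multiset.mem_toFinset, mem_roots hne, IsRoot, eval_sub, eval_pow, eval_X, sub_eq_zero]
    rfl
  have h1 : (univ.image φ) ⊆ (X ^ (Fintype.card k ^ m) - X : (Om k)[X]).roots.toFinset := by
    intro z hz
    rw [Finset.mem_image] at hz
    obtain ⟨x, _, rfl⟩ := hz
    rw [hroot]
    show (φ x) ^ (Fintype.card k ^ m) = φ x
    rw [← map_pow, ← hcard, FiniteField.pow_card]
  have h2' : (X ^ (Fintype.card k ^ m) - X : (Om k)[X]).roots.toFinset.card ≤ (univ.image φ).card := by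
    rw [Finset.card_image_of_injective _ hφi, Finset.card_univ, hcard]
    exact ((Multiset.toFinset_card_le _).trans (card_roots' _)).trans hdeg.le
  have h3 := Finset.eq_of_subset_of_card_le h1 h2'
  rw [← hroot, ← h3, Finset.mem_image]
  constructor
  · rintro ⟨x, _, rfl⟩
    obtain ⟨z, rfl⟩ := AdjoinRoot.mk_surjective x
    exact ⟨z, hφ z⟩
  · rintro ⟨z, rfl⟩
    exact ⟨_, Finset.mem_univ _, hφ z⟩

theorem ringChar_ext (hk : ringChar k ≠ 2) : ringChar k' ≠ 2 := by
  have h1 : ringChar k' = ringChar k := by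
    have hk : CharP k (ringChar k) := ringChar.charP k
    have hE : CharP k' (ringChar k) := charP_of_injective_algebraMap (algebraMap k k').injective _
    exact ringChar.eq k' (ringChar k)
  rw [h1]
  exact hk

theorem not_coprime_of_dvd {F : Type} [Field F] {P f : F[X]} (hi : Irreducible P) (hd : P ∣ f) :
    ¬ IsCoprime f P := fun hc => hi.not_isUnit (hc.isUnit_of_dvd' hd dvd_rfl)

end syl

theorem t_SYL (h1 : S_FLD) (h2 : S_RTP) (h3 : S_SGD) (h4 : S_FCT) : S_SYL := by
  intro k k' _ _ _ _ _ j hk P hm hi f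
  obtain ⟨s1, s2, s3⟩ := fp_spec (j := j) h2 hm hi
  have hm0 : 0 < Nat.lcm (Module.finrank k k') P.natDegree := Nat.lcm_pos finrank_pos' hi.natDegree_pos
  have hroot : ∀ z : k'[X], z.eval₂ (j : k' →+* Om k) (rt P) = 0 ↔ fp j P ∣ z := by
    intro z
    constructor
    · exact fun h => dvd_of_root s2 s3 h
    · rintro ⟨w, rfl⟩
      rw [eval₂_mul, s3, zero_mul]
  by_cases hd : fp j P ∣ f
  · rw [L_of_not_coprime s2.ne_zero (not_coprime_of_dvd s2 hd), (hroot f).2 hd]
    exact (h3 k hk _ hm0).2.2.2.2.2.symm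
  · apply f2eq
    rw [L_eq_zero_iff (ringChar_ext (k := k) hk) s1 s2 hd, sgd_zero_iff]
    constructor
    · rintro ⟨z, hz⟩
      refine ⟨z.eval₂ (j : k' →+* Om k) (rt P), (inK_lcm h2 hm hi _).2 ⟨z, rfl⟩, ?_⟩
      rw [← hroot, eval₂_sub, eval₂_pow, sub_eq_zero] at hz
      exact hz.symm
    · rintro ⟨y, hy, e⟩
      obtain ⟨z, rfl⟩ := (inK_lcm (j := j) h2 hm hi y).1 hy
      refine ⟨z, ?_⟩
      rw [← hroot, eval₂_sub, eval₂_pow, e, sub_self]

section syr

variable {k k' : Type} [Field k] [Fintype k] [Field k'] [Fintype k'] [Algebra k k'] {j : k' →ₐ[k] Om k}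
  {P P' : k[X]}

theorem yy_inK' (h2 : S_RTP) (hm : P.Monic) (hi : Irreducible P) (hm' : P'.Monic) (hi' : Irreducible P')
    {g m : ℕ} (hg : g ∣ P.natDegree) (hgm : g ∣ m) (hdm : P'.natDegree ∣ m) (c : ℕ) (hc : c < g) :
    inK k m (yy g P P' c) := by
  show (yy g P P' c) ^ (Fintype.card k ^ m) = yy g P P' c
  unfold yy
  rw [prod_q]
  have h3 : rt P' ^ (Fintype.card k ^ m) = rt P' := inK_of_dvd hdm (h2 k P' hm' hi').2.1
  have h4 : ∀ l, (rt P' - rt P ^ (Fintype.card k ^ l)) ^ (Fintype.card k ^ m) = rt P' - rt P ^ (Fintype.card k ^ (l + m)) := by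
    intro l
    rw [sub_q, h3, pow_pow_q]
  rw [Finset.prod_congr rfl fun l _ => h4 l]
  have h5 := prod_shift (fun l => rt P' - rt P ^ (Fintype.card k ^ l)) P.natDegree g hi.natDegree_pos hg
    (fun n m hnm => by
      show rt P' - rt P ^ (Fintype.card k ^ n) = rt P' - rt P ^ (Fintype.card k ^ m)
      rw [per h2 hm hi n m hnm]) c m
  have h6 : (c + m) % g = c := by
    obtain ⟨t, ht⟩ := hgm
    rw [ht, Nat.add_mul_mod_self_left, Nat.mod_eq_of_lt hc]
  rw [h6, Nat.mod_eq_of_lt hc] at h5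
  exact h5

theorem yy_ne' {g : ℕ} {c : ℕ} (h : ∀ l < P.natDegree, l % g = c → rt P' ≠ rt P ^ (Fintype.card k ^ l)) :
    yy g P P' c ≠ 0 := by
  unfold yy
  rw [Finset.prod_ne_zero_iff]
  intro l hl
  rw [mem_filter, mem_range] at hl
  exact sub_ne_zero.2 (h l hl.1 hl.2)

/-- the symbols over the extension -/
theorem L_yy (h0 : S_SYL) (hk : ringChar k ≠ 2) (h2 : S_RTP) (hm : P.Monic) (hi : Irreducible P)
    (hm' : P'.Monic) (hi' : Irreducible P') {c : ℕ} (hc : c < Nat.gcd (Module.finrank k k') P.natDegree) :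
    L ((ph k)^[c] (fp j P)) (fp j P') = sgd k (Nat.lcm (Module.finrank k k') P'.natDegree)
      (yy (Nat.gcd (Module.finrank k k') P.natDegree) P P' c) := by
  rw [h0 k k' j hk P' hm' hi', eval₂_eq_eval_map, ph_iter_map h2 hm hi]
  congr 1
  unfold HH yy
  rw [eval_prod, Nat.mod_eq_of_lt hc]
  refine prod_congr rfl fun l _ => ?_
  rw [eval_sub, eval_X, eval_C]

theorem lcm_div {e d : ℕ} (he : 0 < e) (hd : 0 < d) (ho : Odd e) : Odd (Nat.lcm e d / d) := by
  have h1 : Nat.lcm e d / d = e / Nat.gcd e d := by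
    rw [Nat.lcm, Nat.div_div_eq_div_mul, mul_comm (Nat.gcd e d) d, ← Nat.div_div_eq_div_mul,
      Nat.mul_div_cancel _ hd]
  rw [h1]
  exact ho.of_dvd_nat (Nat.div_dvd_of_dvd (Nat.gcd_dvd_left _ _))

/-- grouping -/
theorem sum_group (h0 : S_SYL) (hk : ringChar k ≠ 2) (h2 : S_RTP) (h3 : S_SGD) (hm : P.Monic)
    (hi : Irreducible P) (hm' : P'.Monic) (hi' : Irreducible P') (ho : Odd (Module.finrank k k')) {r : ℕ}
    (hr0 : 0 < r) (hre : r ∣ Module.finrank k k') (hrd : r ∣ P.natDegree) (hrd' : r ∣ P'.natDegree)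
    {c : ℕ} (hc : c < r) (hne : ∀ l < P.natDegree, l % r = c → rt P' ≠ rt P ^ (Fintype.card k ^ l)) :
    sy r P P' c = ∑ c' ∈ (range (Nat.gcd (Module.finrank k k') P.natDegree)).filter (fun c' => c' % r = c),
      L ((ph k)^[c'] (fp j P)) (fp j P') := by
  obtain ⟨e, he⟩ : ∃ e, e = Module.finrank k k' := ⟨_, rfl⟩
  have he0 : 0 < e := by rw [he]; exact finrank_pos'
  obtain ⟨g, hg⟩ : ∃ g, g = Nat.gcd e P.natDegree := ⟨_, rfl⟩
  rw [← he, ← hg]
  have hg0 : 0 < g := by rw [hg]; exact Nat.gcd_pos_of_pos_right _ hi.natDegree_pos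
  have hgd : g ∣ P.natDegree := by rw [hg]; exact Nat.gcd_dvd_right _ _
  have hge : g ∣ e := by rw [hg]; exact Nat.gcd_dvd_left _ _
  have hrg : r ∣ g := by rw [hg]; exact Nat.dvd_gcd (by rw [he]; exact hre) hrd
  obtain ⟨m, hmm⟩ : ∃ m, m = Nat.lcm e P'.natDegree := ⟨_, rfl⟩
  have hm0 : 0 < m := by rw [hmm]; exact Nat.lcm_pos he0 hi'.natDegree_pos
  have hdm : P'.natDegree ∣ m := by rw [hmm]; exact Nat.dvd_lcm_right _ _
  have hem : e ∣ m := by rw [hmm]; exact Nat.dvd_lcm_left _ _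
  have hlt : ∀ c' ∈ (range g).filter (fun c' => c' % r = c), c' < g := fun c' hc' =>
    mem_range.1 (mem_filter.1 hc').1
  have e1 : ∀ c' ∈ (range g).filter (fun c' => c' % r = c), L ((ph k)^[c'] (fp j P)) (fp j P') =
      sgd k m (yy g P P' c') := by
    intro c' hc'
    have h5 := hlt c' hc'
    rw [hg, he] at h5
    rw [L_yy h0 hk h2 hm hi hm' hi' h5, hmm, hg, he]
  rw [sum_congr rfl e1]
  have h6 := sgd_prod hk h3 hm0 ((range g).filter (fun c' => c' % r = c)) (fun c => yy g P P' c)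
    (fun c' hc' => yy_inK' h2 hm hi hm' hi' hgd (hge.trans hem) hdm c' (hlt c' hc'))
    (fun c' hc' => yy_ne' fun l hl hlc => hne l hl (by
      rw [← Nat.mod_mod_of_dvd l hrg, hlc]
      exact (mem_filter.1 hc').2))
  have h7 : ∏ c' ∈ (range g).filter (fun c' => c' % r = c), yy g P P' c' = yy r P P' c := by
    unfold yy
    rw [← Finset.prod_fiberwise_of_maps_to
      (s := (range P.natDegree).filter (fun l => l % r = c))
      (t := (range g).filter (fun c' => c' % r = c)) (g := fun l => l % g)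
      (fun l hl => by
        rw [mem_filter] at hl ⊢
        refine ⟨mem_range.2 (Nat.mod_lt _ hg0), ?_⟩
        rw [Nat.mod_mod_of_dvd _ hrg, hl.2]) (fun l => rt P' - rt P ^ (Fintype.card k ^ l))]
    refine prod_congr rfl fun c' hc' => ?_
    refine prod_congr ?_ fun _ _ => rfl
    ext l
    simp only [mem_filter, mem_range]
    rw [mem_filter] at hc'
    constructor
    · rintro ⟨a, b⟩
      refine ⟨⟨a, ?_⟩, b⟩
      rw [← Nat.mod_mod_of_dvd l hrg, b, hc'.2]
    · rintro ⟨⟨a, _⟩, b⟩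
      exact ⟨a, b⟩
  rw [h7] at h6
  rw [← h6.2, sy_eq]
  have h8 : inK k P'.natDegree (yy r P P' c) := yy_inK' h2 hm hi hm' hi' hrd hrd' dvd_rfl c hc
  exact ((h3 k hk P'.natDegree hi'.natDegree_pos).2.2.1 _ m h8 hdm (by
    rw [hmm]
    exact lcm_div he0 hi'.natDegree_pos (by rw [he]; exact ho))).2.symm

end syr

theorem t_SYR (h1 : S_SYL) (h2 : S_FCT) (h3 : S_SGD) (h4 : S_RTP) : S_SYR := by
  intro k k' _ _ _ _ _ j hk ho P hm hi
  refine ⟨?_, ?_⟩
  · intro F _ _ ξ r hr0 hξ hre hrd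
    have hrg : r ∣ Nat.gcd (Module.finrank k k') P.natDegree := Nat.dvd_gcd hre hrd
    refine ⟨?_, ?_⟩
    · intro P' hm' hi' hne hrd'
      unfold hv
      symm
      refine hv_ev ξ hr0 hrg hξ (fun c => sy r P P' c)
        (fun c => L ((ph k)^[c] (fp j P)) (fp j P')) fun c hc => ?_
      refine sum_group h1 hk h4 h3 hm hi hm' hi' ho hr0 hre hrd hrd' hc fun l _ _ => ?_
      have h5 := (h4 k P hm hi).2.2.2.2 P' hm' hi' hne.symm l 0
      rw [pow_zero, pow_one] at h5
      exact h5.symm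
    · unfold own
      have hF : ∀ x : F, x + x = 0 := by
        haveI : CharP F 2 := charP_of_injective_algebraMap (algebraMap F2 F).injective 2
        exact CharTwo.add_self_eq_zero
      have e1 : ∀ c ∈ range r, (cf (sy r P P c) : F) * (1 + ξ ^ c) =
          ∑ c' ∈ (range (Nat.gcd (Module.finrank k k') P.natDegree)).filter (fun c' => c' % r = c),
            (if c' = 0 then 0 else cf (L ((ph k)^[c'] (fp j P)) (fp j P)) * (1 + ξ ^ c')) := by
        intro c hc
        rcases Nat.eq_zero_or_pos c with rfl | hc0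
        · rw [pow_zero, hF, mul_zero]
          symm
          apply sum_eq_zero
          intro c' hc'
          rw [mem_filter] at hc'
          split_ifs
          · rfl
          · rw [pow_eq_pow_mod c' hξ, hc'.2, pow_zero, hF, mul_zero]
        · have h5 := sum_group (j := j) h1 hk h4 h3 hm hi hm hi ho hr0 hre hrd hrd (mem_range.1 hc) (fun l hl hlc he => by
            have h6 : rt P ^ (Fintype.card k ^ 0) = rt P ^ (Fintype.card k ^ l) := by
              rw [pow_zero, pow_one]; exact he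
            have h7 := ((h4 k P hm hi).2.2.2.1 0 l).1 h6
            have h8 : 0 % P.natDegree = l % P.natDegree := h7
            rw [Nat.zero_mod, Nat.mod_eq_of_lt hl] at h8
            rw [← h8, Nat.zero_mod] at hlc
            omega)
          rw [h5, cf_sum, sum_mul]
          refine sum_congr rfl fun c' hc' => ?_
          rw [mem_filter] at hc'
          have h9 : c' ≠ 0 := by
            rintro rfl
            rw [Nat.zero_mod] at hc'
            omega
          rw [if_neg h9, pow_eq_pow_mod c' hξ, hc'.2]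
      rw [sum_congr rfl e1]
      symm
      exact Finset.sum_fiberwise_of_maps_to (t := range r) (g := fun l => l % r)
        (fun l _ => mem_range.2 (Nat.mod_lt _ hr0)) (fun c' =>
          (if c' = 0 then (0 : F) else cf (L ((ph k)^[c'] (fp j P)) (fp j P)) * (1 + ξ ^ c')))
  · intro f
    have hd0 := hi.natDegree_pos
    have e1 : (f.map (algebraMap k k')).eval₂ (j : k' →+* Om k) (rt P) = aeval (rt P) f := by
      rw [eval₂_eq_eval_map, map_map_j, eval_map, aeval_def]
    rw [h1 k k' j hk P hm hi, e1]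
    have h5 : inK k P.natDegree (aeval (rt P) f) := by
      show (aeval (rt P) f) ^ _ = _
      rw [aeval_q]
      have : rt P ^ (Fintype.card k ^ P.natDegree) = rt P := (h4 k P hm hi).2.1
      rw [this]
    have he0 : 0 < Module.finrank k k' := finrank_pos'
    rw [((h3 k hk P.natDegree hd0).2.2.1 _ _ h5 (Nat.dvd_lcm_right _ _) (lcm_div he0 hd0 ho)).2]
    by_cases hd : P ∣ f
    · rw [L_of_not_coprime hi.ne_zero (not_coprime_of_dvd hi hd)]
      obtain ⟨w, rfl⟩ := hd
      rw [map_mul, (h4 k P hm hi).1, zero_mul]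
      exact (h3 k hk _ hd0).2.2.2.2.2
    · exact L_sgd hk h4 hm hi hd

end Pool.Agent.Q16.GR

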